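import Pool.Agent.N756.GP.Word

/-! Adapted bases formed by words in derivations. -/

set_option autoImplicit false

namespace Pool.Agent.N756.GP

variable {K : Type*} [Field K] {A : Type*}

/-- a family with no nonzero orthogonal vector spans -/
theorem span_top_of_orth {m : ℕ} (S : Set (Fin m → K))
    (h : ∀ c : Fin m → K, (∀ v ∈ S, ∑ l, c l * v l = 0) → c = 0) : Submodule.span K S = ⊤ := by
  by_contra hne
  obtain ⟨f, hf0, hf⟩ := Submodule.exists_le_ker_of_lt_top _ (lt_top_iff_ne_top.2 hne)
  have hsum : ∀ v : Fin m → K, f v = ∑ l, f (Pi.single l 1) * v l := by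
    intro v
    rw [LinearMap.pi_apply_eq_sum_univ f v]
    exact Finset.sum_congr rfl fun l _ => by
      rw [smul_eq_mul, mul_comm]
      congr 2
      funext j
      by_cases hj : l = j
      · subst hj; simp
      · rw [if_neg hj, Pi.single_eq_of_ne (Ne.symm hj)]
  have h1 := h (fun l => f (Pi.single l 1)) (fun v hv => by
    rw [← hsum v]
    exact hf (Submodule.subset_span hv))
  apply hf0
  ext v
  have := congrFun h1 v
  simpa using this

variable (d : Option A → Derivation ℤ K K)

/-- If the functions are linearly independent over the constants, then the words span. -/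
theorem words_span {r : ℕ} (y : Fin r → K)
    (hc : ∀ c : Fin r → K, (∀ a l, d a (c l) = 0) → ∑ l, c l * y l = 0 → c = 0) :
    Submodule.span K {v | ∃ w : List (Option A), v = fun l => act d w (y l)} = ⊤ := by
  classical
  apply span_top_of_orth
  by_contra hcon
  push Not at hcon
  -- a nonzero orthogonal vector with minimal support
  have hne : {N : ℕ | ∃ c : Fin r → K, c ≠ 0 ∧ (∀ w, ∑ l, c l * act d w (y l) = 0) ∧
      (Finset.univ.filter fun l => c l ≠ 0).card = N}.Nonempty := by
    obtain ⟨c, h1, h2⟩ := hcon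
    exact ⟨_, c, h2, fun w => h1 _ ⟨w, rfl⟩, rfl⟩
  obtain ⟨c, hc0, hcw, hcN⟩ := Nat.sInf_mem hne
  obtain ⟨l0, hl0⟩ := Function.ne_iff.1 hc0
  have hl0' : c l0 ≠ 0 := hl0
  -- normalise
  set b : Fin r → K := fun l => c l / c l0 with hb
  have hbl : b l0 = 1 := div_self hl0'
  have hbw : ∀ w, ∑ l, b l * act d w (y l) = 0 := by
    intro w
    have : ∑ l, b l * act d w (y l) = (∑ l, c l * act d w (y l)) / c l0 := by
      rw [Finset.sum_div]
      exact Finset.sum_congr rfl fun l _ => by simp only [hb]; ring
    rw [this, hcw, zero_div]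
  have hder : ∀ a, (fun l => d a (b l)) = 0 := by
    intro a
    by_contra hne0
    have h1 : ∀ w, ∑ l, d a (b l) * act d w (y l) = 0 := by
      intro w
      have h2 := congrArg (d a) (hbw w)
      have h3 := hbw (a :: w)
      rw [map_zero, map_sum] at h2
      simp only [(d a).leibniz, smul_eq_mul, Finset.sum_add_distrib] at h2
      change ∑ l, b l * d a (act d w (y l)) = 0 at h3
      rw [h3, zero_add] at h2
      rw [← h2]
      exact Finset.sum_congr rfl fun l _ => mul_comm _ _
    have h2 := Nat.sInf_le (s := {N : ℕ | ∃ c : Fin r → K, c ≠ 0 ∧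
      (∀ w, ∑ l, c l * act d w (y l) = 0) ∧ (Finset.univ.filter fun l => c l ≠ 0).card = N})
      ⟨fun l => d a (b l), hne0, h1, rfl⟩
    rw [← hcN] at h2
    have h3 : (Finset.univ.filter fun l => d a (b l) ≠ 0) ⊂ Finset.univ.filter fun l => c l ≠ 0 := by
      rw [Finset.ssubset_iff_of_subset]
      · refine ⟨l0, by simp [hl0'], ?_⟩
        simp only [Finset.mem_filter, Finset.mem_univ, true_and, not_not, hbl]
        exact (d a).map_one_eq_zero
      · intro l hl
        simp only [Finset.mem_filter, Finset.mem_univ, true_and] at hl ⊢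
        intro h0
        apply hl
        simp only [hb, h0, zero_div, map_zero]
    exact absurd (Finset.card_lt_card h3) (not_lt.2 h2)
  have := hc b (fun a l => congrFun (hder a) l) (hbw [])
  rw [this] at hbl
  exact zero_ne_one hbl


/-- words of length at most `L` -/
theorem rk_lt_iff {w : List (Option A)} {L : ℕ} : rk w < (L + 1) ^ 2 ↔ w.length ≤ L := by
  constructor
  · intro h
    by_contra hcon
    push Not at hcon
    have h1 : (L + 1) ^ 2 ≤ w.length ^ 2 := Nat.pow_le_pow_left hcon 2
    unfold rk at h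
    omega
  · intro h
    have h1 := som_le w
    unfold rk
    have h2 : w.length ^ 2 ≤ L ^ 2 := Nat.pow_le_pow_left h 2
    nlinarith

/-- dimension of the span of the words of length at most `L` -/
noncomputable def fd {r : ℕ} (y : Fin r → K) (L : ℕ) : ℕ :=
  Module.finrank K (U d y ((L + 1) ^ 2))

theorem fd_succ {r : ℕ} (y : Fin r → K)
    (hc : ∀ c : Fin r → K, (∀ a l, d a (c l) = 0) → ∑ l, c l * y l = 0 → c = 0) (L : ℕ) :
    r ≤ fd d y L ∨ fd d y L < fd d y (L + 1) := by
  have hmono := U_mono d y (N := (L + 1) ^ 2) (M := (L + 1 + 1) ^ 2)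
    (Nat.pow_le_pow_left (by omega) 2)
  rcases hmono.eq_or_lt with heq | hlt
  · left
    have hall : ∀ w : List (Option A), (fun l => act d w (y l)) ∈ U d y ((L + 1) ^ 2) := by
      intro w
      induction w with
      | nil => exact mem_U d y (rk_lt_iff.2 (Nat.zero_le _))
      | cons a w ih =>
        rw [heq]
        refine der_mem d y a (Nat.pow_le_pow_left (by omega) 2) (fun w' hw' => ?_) ih
        rw [rk_lt_iff] at hw' ⊢
        simpa using hw'
    have htop : U d y ((L + 1) ^ 2) = ⊤ := by
      rw [eq_top_iff, ← words_span d y hc, Submodule.span_le]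
      rintro v ⟨w, rfl⟩
      exact hall w
    unfold fd
    rw [htop, finrank_top]
    simp
  · right
    exact Submodule.finrank_lt_finrank_of_lt hlt

theorem fd_lower {r : ℕ} (y : Fin r → K)
    (hc : ∀ c : Fin r → K, (∀ a l, d a (c l) = 0) → ∑ l, c l * y l = 0 → c = 0) {m : ℕ}
    (hm : m + 1 ≤ fd d y 1) (L : ℕ) : min r (m + (L + 1)) ≤ fd d y (L + 1) := by
  induction L with
  | zero => exact (min_le_right _ _).trans hm
  | succ L ih =>
    rcases fd_succ d y hc (L + 1) with h | h
    · refine (min_le_left _ _).trans (h.trans ?_)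
      exact Submodule.finrank_mono (U_mono d y (Nat.pow_le_pow_left (by omega) 2))
    · omega

/-- length bounds of the adapted basis -/
def lb (m i : ℕ) : ℕ := if i = 0 then 0 else if i ≤ m then 1 else i + 1 - m

theorem lb_fd {r : ℕ} (y : Fin r → K) (hy : y ≠ 0)
    (hc : ∀ c : Fin r → K, (∀ a l, d a (c l) = 0) → ∑ l, c l * y l = 0 → c = 0) {m : ℕ}
    (hm : m + 1 ≤ fd d y 1) {i : ℕ} (hi : i < r) : i < fd d y (lb m i) := by
  unfold lb
  split_ifs with h0 h1
  · subst h0
    unfold fd
    rw [Module.finrank_pos_iff]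
    refine ⟨⟨⟨fun l => act d [] (y l), mem_U d y (rk_lt_iff.2 (Nat.zero_le _))⟩, 0, ?_⟩⟩
    intro h
    exact hy (congrArg Subtype.val h)
  · omega
  · have h2 := fd_lower d y hc hm (i - m)
    have h3 : i - m + 1 = i + 1 - m := by omega
    rw [h3] at h2
    omega

/-- The adapted basis. -/
theorem exists_adapted {r : ℕ} (y : Fin r → K) (hy : y ≠ 0)
    (hc : ∀ c : Fin r → K, (∀ a l, d a (c l) = 0) → ∑ l, c l * y l = 0 → c = 0) {m : ℕ}
    (hm : m + 1 ≤ fd d y 1) :
    ∀ D ≤ r, ∃ w : Fin D → List (Option A),
      LinearIndependent K (fun i => fun l => act d (w i) (y l)) ∧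
      (∀ i, U d y (rk (w i)) ≤ Submodule.span K {v | ∃ j, j < i ∧ v = fun l => act d (w j) (y l)}) ∧
      ∀ i, (w i).length ≤ lb m i := by
  intro D
  induction D with
  | zero =>
    intro _
    exact ⟨Fin.elim0, linearIndependent_empty_type, fun i => i.elim0, fun i => i.elim0⟩
  | succ D ih =>
    intro hD
    obtain ⟨w, hw1, hw2, hw3⟩ := ih (by omega)
    set V : Submodule K (Fin r → K) :=
      Submodule.span K (Set.range fun i => fun l => act d (w i) (y l)) with hV
    have hVdim : Module.finrank K V = D := by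
      rw [hV, finrank_span_eq_card hw1, Fintype.card_fin]
    have hex : ∃ w' : List (Option A), w'.length ≤ lb m D ∧ (fun l => act d w' (y l)) ∉ V := by
      by_contra hcon
      push Not at hcon
      have h1 : U d y ((lb m D + 1) ^ 2) ≤ V := by
        unfold U
        rw [Submodule.span_le]
        rintro v ⟨w', hw', rfl⟩
        exact hcon w' (rk_lt_iff.1 hw')
      have h2 := Submodule.finrank_mono h1
      rw [hVdim] at h2
      have h3 := lb_fd d y hy hc hm (i := D) (by omega)
      unfold fd at h3
      omega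
    have hne : {N : ℕ | ∃ w' : List (Option A), (fun l => act d w' (y l)) ∉ V ∧ rk w' = N}.Nonempty := by
      obtain ⟨w', -, h⟩ := hex
      exact ⟨_, w', h, rfl⟩
    obtain ⟨w', hw'V, hw'N⟩ := Nat.sInf_mem hne
    have hmin : ∀ w'' : List (Option A), (fun l => act d w'' (y l)) ∉ V → rk w' ≤ rk w'' := by
      intro w'' h
      rw [hw'N]
      exact Nat.sInf_le ⟨w'', h, rfl⟩
    have hlen : w'.length ≤ lb m D := by
      obtain ⟨w'', h1, h2⟩ := hex
      rw [← rk_lt_iff] at h1 ⊢
      exact (hmin w'' h2).trans_lt h1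
    have hU : U d y (rk w') ≤ V := by
      unfold U
      rw [Submodule.span_le]
      rintro v ⟨w'', hw'', rfl⟩
      by_contra hcon
      exact absurd (hmin w'' hcon) (not_le.2 hw'')
    refine ⟨Fin.snoc w w', ?_, ?_, ?_⟩
    · have e : (fun i => fun l => act d ((Fin.snoc w w' : Fin (D + 1) → List (Option A)) i) (y l)) =
          Fin.snoc (fun i => fun l => act d (w i) (y l)) (fun l => act d w' (y l)) := by
        funext i
        refine Fin.lastCases ?_ (fun i => ?_) i
        · rw [Fin.snoc_last, Fin.snoc_last]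
        · rw [Fin.snoc_castSucc, Fin.snoc_castSucc]
      rw [e, linearIndependent_finSnoc]
      exact ⟨hw1, hw'V⟩
    · intro i
      refine Fin.lastCases ?_ (fun i => ?_) i
      · rw [Fin.snoc_last]
        refine hU.trans ?_
        rw [hV]
        apply Submodule.span_mono
        rintro v ⟨j, rfl⟩
        exact ⟨j.castSucc, Fin.castSucc_lt_last j, by rw [Fin.snoc_castSucc]⟩
      · rw [Fin.snoc_castSucc]
        refine (hw2 i).trans ?_
        apply Submodule.span_mono
        rintro v ⟨j, hj, rfl⟩
        exact ⟨j.castSucc, by simpa using hj, by rw [Fin.snoc_castSucc]⟩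
    · intro i
      refine Fin.lastCases ?_ (fun i => ?_) i
      · rw [Fin.snoc_last, Fin.val_last]; exact hlen
      · rw [Fin.snoc_castSucc, Fin.val_castSucc]; exact hw3 i

theorem sum_lb {m : ℕ} (r : ℕ) (hr : m + 1 ≤ r) :
    ∑ i ∈ Finset.range r, (if i ≤ m then 0 else i + 1 - m) + 1 ≤ (r + 1 - m).choose 2 := by
  induction r, hr using Nat.le_induction with
  | base =>
    have h1 : ∑ i ∈ Finset.range (m + 1), (if i ≤ m then 0 else i + 1 - m) = 0 :=
      Finset.sum_eq_zero fun i hi => if_pos (by rw [Finset.mem_range] at hi; omega)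
    have h2 : m + 1 + 1 - m = 2 := by omega
    rw [h1, h2]; decide
  | succ r hr ih =>
    rw [Finset.sum_range_succ, if_neg (by omega)]
    have h1 : r + 1 + 1 - m = (r + 1 - m) + 1 := by omega
    have h2 : (r + 1 - m + 1).choose 2 = (r + 1 - m).choose 1 + (r + 1 - m).choose 2 :=
      Nat.choose_succ_succ' _ 1
    rw [h1, h2, Nat.choose_one_right]
    omega

theorem sum_num {r : ℕ} (y : Fin r → K) {m : ℕ} (hmr : m + 1 ≤ r)
    (w : Fin r → List (Option A))
    (hw1 : LinearIndependent K (fun i => fun l => act d (w i) (y l)))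
    (hw3 : ∀ i, (w i).length ≤ lb m i) : ∑ i, num (w i) ≤ (r + 1 - m).choose 2 := by
  classical
  have hinj : Function.Injective w := by
    intro i j hij
    apply hw1.injective
    beta_reduce
    rw [hij]
  have h1 : ∀ i : Fin r, num (w i) ≤ (if w i = [none] then 1 else 0) +
      (if (i : ℕ) ≤ m then 0 else (i : ℕ) + 1 - m) := by
    intro i
    have h2 := hw3 i
    have h3 := num_le (w i)
    unfold lb at h2
    by_cases him : (i : ℕ) ≤ m
    · rw [if_pos him]
      have h4 : (w i).length ≤ 1 := by
        split_ifs at h2 <;> omega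
      match hwi : w i, h4 with
      | [], _ => simp [num]
      | [none], _ => simp [num]
      | [some a], _ => simp [num]
      | _ :: _ :: _, h => simp at h
    · rw [if_neg him]
      rw [if_neg (by omega), if_neg him] at h2
      omega
  refine (Finset.sum_le_sum fun i _ => h1 i).trans ?_
  rw [Finset.sum_add_distrib]
  have h2 : ∑ i : Fin r, (if w i = [none] then 1 else 0) ≤ 1 := by
    rw [← Finset.card_filter]
    apply Finset.card_le_one.2
    intro i hi j hj
    rw [Finset.mem_filter] at hi hj
    exact hinj (hi.2.trans hj.2.symm)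
  have h3 : ∑ i : Fin r, (if (i : ℕ) ≤ m then 0 else (i : ℕ) + 1 - m) =
      ∑ i ∈ Finset.range r, (if i ≤ m then 0 else i + 1 - m) :=
    Fin.sum_univ_eq_sum_range (fun i => if i ≤ m then 0 else i + 1 - m) r
  have h4 := sum_lb r hmr
  rw [h3]
  omega

end Pool.Agent.N756.GP
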