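import Pool.Agent.W603.LV.Can

/-! Heights, radicals and degrees of rational vector fields for a function field of one variable. -/

set_option autoImplicit false

open FF Pool.Agent.W603.LV

namespace Pool.Agent.N756.GP

universe u v

variable {k : Type u} {K : Type v} [Field k] [Field K] [Algebra k K]

/-- The functions of order at least `N` at the place `P`. -/
def ordGe (P : Place k K) (N : ℤ) : Submodule k K where
  carrier := {f | f = 0 ∨ N ≤ P.ord f}
  zero_mem' := Or.inl rfl
  add_mem' := Ge.add
  smul_mem' c f hf := by
    rw [Algebra.smul_def]
    have := (Ge.const (P := P) c).mul (N := 0) (M := N) (g := f) hf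
    rwa [zero_add] at this

/-- The degree of the place `P`: the dimension over `k` of its residue field, the space of the
functions regular at `P` modulo those that vanish at `P`. -/
noncomputable def degree (P : Place k K) : ℕ :=
  Module.finrank k (ordGe P 0 ⧸ (ordGe P 1).submoduleOf (ordGe P 0))

/-- The degree of the divisor of the rational vector field `D`, that is, of a `k`-derivation of `K`:
its order at the place `P` is `ord_P (D π)` for a uniformizer `π` at `P`. If `D ≠ 0`, the degree is
`2 - 2 g`. -/
noncomputable def fieldDegree (D : Derivation k K K) : ℤ :=
  ∑ᶠ P : Place k K, (degree P : ℤ) * P.ord (D (unif P))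

variable (k) in
/-- The height `h(P) = ∑_v deg v · max_j (-ord_v z_j)` of the point `P = (z_1, …, z_n)` over the
function field `K` of one variable over `k`. -/
noncomputable def height {n : ℕ} (z : Fin n → K) : ℤ :=
  ∑ᶠ P : Place k K, (degree P : ℤ) * ⨆ j, -P.ord (z j)

variable (k) in
open Classical in
/-- The radical `rad(P) = ∑ deg v`, over the places `v` at which the `ord_v z_j` are not all
equal. -/
noncomputable def radical {n : ℕ} (z : Fin n → K) : ℤ :=
  ∑ᶠ P : Place k K, if ∃ i j, P.ord (z i) ≠ P.ord (z j) then (degree P : ℤ) else 0

end Pool.Agent.N756.GP
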