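import Pool.Agent.N756.GP.Main

/-! The height inequality for points of large transcendence degree. -/

set_option autoImplicit false

open Polynomial FF Pool.Agent.W603.LV

namespace Pool.Agent.N756.GP

variable {k K : Type*} [Field k] [Field K] [Algebra k K] [CharZero k] [IsFF k K]

omit [CharZero k] [IsFF k K] in
theorem degree_eq (P : Place k K) : degree P = P.deg := by
  unfold degree Place.deg
  let φ : ordGe P 0 →ₗ[k] P.RF :=
    { toFun := fun f => P.red f
      map_add' := fun f g => P.red_add f.2 g.2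
      map_smul' := fun c f => by
        change P.red (c • (f : K)) = c • P.red (f : K)
        rw [Algebra.smul_def, Algebra.smul_def, P.red_mul (P.reg_const c) f.2, P.algebraMap_RF] }
  have hφ : Function.Surjective φ := by
    intro c
    obtain ⟨f, hf, hfc⟩ := P.red_surjective c
    exact ⟨⟨f, hf⟩, hfc⟩
  have hker : (ordGe P 1).submoduleOf (ordGe P 0) = LinearMap.ker φ := by
    ext f
    rw [LinearMap.mem_ker, Submodule.submoduleOf, Submodule.mem_comap]
    change ((f : K) = 0 ∨ 1 ≤ P.ord (f : K)) ↔ P.red (f : K) = 0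
    rw [P.red_eq_zero_iff f.2]
    constructor
    · rintro (h | h)
      · exact Or.inl h
      · right; omega
    · rintro (h | h)
      · exact Or.inl h
      · right; omega
  rw [hker]
  exact (φ.quotKerEquivOfSurjective hφ).finrank_eq

theorem sum_deg_ord (f : K) (T : Finset (Place k K)) (hT : ∀ P : Place k K, P.ord f ≠ 0 → P ∈ T) :
    ∑ P ∈ T, (P.deg : ℤ) * P.ord f = 0 := by
  have h1 := ddeg_divisor (k := k) f
  unfold ddeg at h1
  rw [Finsupp.sum_of_support_subset (s := T)] at h1
  · rw [← h1]
    exact Finset.sum_congr rfl fun P _ => by rw [divisor_apply, mul_comm]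
  · intro P hP
    rw [Finsupp.mem_support_iff, divisor_apply] at hP
    exact hT P hP
  · intro P _; simp

omit [CharZero k] [IsFF k K] in
theorem height_eq {r : ℕ} (z : Fin (r + 1) → K) (j0 : Place k K → Fin (r + 1))
    (hj0 : ∀ (P : Place k K) i, P.ord (z (j0 P)) ≤ P.ord (z i)) (T : Finset (Place k K))
    (hT : ∀ i, ∀ P : Place k K, P.ord (z i) ≠ 0 → P ∈ T) :
    height k z = - ∑ P ∈ T, (P.deg : ℤ) * P.ord (z (j0 P)) := by
  have h1 : ∀ P : Place k K, (⨆ j, -P.ord (z j)) = -P.ord (z (j0 P)) := by
    intro P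
    apply le_antisymm
    · exact ciSup_le fun j => neg_le_neg (hj0 P j)
    · exact le_ciSup (f := fun j => -P.ord (z j)) (Set.finite_range _).bddAbove (j0 P)
  unfold height
  rw [finsum_eq_sum_of_support_subset (s := T), ← Finset.sum_neg_distrib]
  · exact Finset.sum_congr rfl fun P _ => by rw [h1, degree_eq]; ring
  · intro P hP
    rw [Function.mem_support, h1] at hP
    refine hT (j0 P) P fun h0 => ?_
    rw [h0] at hP; simp at hP

omit [CharZero k] [IsFF k K] in
open Classical in
theorem radical_eq {r : ℕ} (z : Fin (r + 1) → K) (T : Finset (Place k K))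
    (hT : ∀ i, ∀ P : Place k K, P.ord (z i) ≠ 0 → P ∈ T) :
    radical k z = ∑ P ∈ T, if ∃ i j, P.ord (z i) ≠ P.ord (z j) then (P.deg : ℤ) else 0 := by
  unfold radical
  simp only [degree_eq]
  rw [finsum_eq_sum_of_support_subset (s := T)]
  intro P hP
  rw [Function.mem_support] at hP
  by_contra hcon
  apply hP
  rw [if_neg]
  push Not
  intro i j
  have h1 : ∀ i, P.ord (z i) = 0 := by
    intro i
    by_contra h
    exact hcon (hT i P h)
  rw [h1, h1]

theorem fieldDegree_eq {D : Derivation k K K} (hD : D ≠ 0) (T : Finset (Place k K))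
    (hT : ∀ P : Place k K, P.ord (der k K (unif P)) ≠ 0 → P ∈ T) :
    ∑ P ∈ T, (P.deg : ℤ) * P.ord (der k K (unif P)) = fieldDegree D := by
  classical
  obtain ⟨h, hh⟩ := der_smul (D' := D) (der_ne (k := k) (K := K))
  have h0 : h ≠ 0 := by
    rintro rfl
    rw [zero_smul] at hh
    exact hD hh
  set T' : Finset (Place k K) := T ∪ (finite_support (k := k) h).toFinset with hT'
  have h1 : ∀ P : Place k K, P.ord (D (unif P)) = P.ord h + P.ord (der k K (unif P)) := by
    intro P
    rw [hh, Derivation.coe_smul, Pi.smul_apply, smul_eq_mul,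
      P.ord_mul h0 (der_unif_ne der_ne P (ord_unif P))]
  unfold fieldDegree
  rw [finsum_eq_sum_of_support_subset (s := T')]
  · have h2 : ∀ P : Place k K, (degree P : ℤ) * P.ord (D (unif P)) =
        (P.deg : ℤ) * P.ord h + (P.deg : ℤ) * P.ord (der k K (unif P)) := by
      intro P; rw [h1, degree_eq]; ring
    rw [Finset.sum_congr rfl fun P _ => h2 P, Finset.sum_add_distrib,
      sum_deg_ord h T' (fun P hP => by
        rw [hT', Finset.mem_union]
        exact Or.inr (by simpa using hP)), zero_add]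
    refine Finset.sum_subset Finset.subset_union_left fun P _ hP => ?_
    have h3 : P.ord (der k K (unif P)) = 0 := by
      by_contra hne
      exact hP (hT P hne)
    rw [h3, mul_zero]
  · intro P hP
    rw [Function.mem_support, h1] at hP
    rw [Finset.mem_coe, hT', Finset.mem_union]
    by_contra hcon
    push Not at hcon
    have h3 : P.ord (der k K (unif P)) = 0 := by
      by_contra hne
      exact hcon.1 (hT P hne)
    have h4 : P.ord h = 0 := by
      by_contra hne
      exact hcon.2 (by simpa using hne)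
    rw [h3, h4] at hP
    simp at hP

theorem main_bound {r m : ℕ} (z : Fin (r + 1) → K) (hz : ∀ i, z i ≠ 0) (hsum : ∑ i, z i = 0)
    (hc : ∀ c : Fin r → K, (∀ a l, dd k K a (c l) = 0) → ∑ l, c l * z (Fin.castSucc l) = 0 → c = 0)
    (hr : 1 ≤ r) (hm : m + 1 ≤ fd (dd k K) (fun l : Fin r => z l.castSucc) 1)
    {D : Derivation k K K} (hD : D ≠ 0) :
    height k z ≤ ((r + 1 - m).choose 2 : ℤ) * max 0 (radical k z - fieldDegree D) := by
  classical
  have hy : (fun l : Fin r => z l.castSucc) ≠ 0 := by
    intro h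
    exact hz _ (congrFun h ⟨0, hr⟩)
  have hmr : m + 1 ≤ r := by
    refine hm.trans ?_
    unfold fd
    refine (Submodule.finrank_le _).trans ?_
    simp
  obtain ⟨w, hw1, hw2, hw3⟩ := exists_adapted (dd k K) _ hy hc hm r le_rfl
  have hcb := sum_num (dd k K) _ hmr w hw1 hw3
  set c : ℕ := ∑ i, num (w i) with hcd
  -- determinants
  have hlast : (minor z w (Fin.last r)).det ≠ 0 := by
    have h1 : LinearIndependent K (minor z w (Fin.last r)).row := by
      convert hw1 using 1
      funext i l
      simp [minor, Matrix.row]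
    rw [Matrix.linearIndependent_rows_iff_isUnit, Matrix.isUnit_iff_isUnit_det] at h1
    exact h1.ne_zero
  set W := (minor z w (Fin.last r)).det with hW
  have hdet : ∀ j, (minor z w j).det ≠ 0 ∧ ∀ P : Place k K, P.ord (minor z w j).det = P.ord W := by
    intro j
    rcases minor_det z hsum w j (Fin.last r) with h | h
    · rw [h]; exact ⟨hlast, fun P => rfl⟩
    · rw [h]; exact ⟨neg_ne_zero.2 hlast, fun P => P.ord_neg _⟩
  -- the minimal orders
  have hmin : ∀ P : Place k K, ∃ i0, ∀ i, P.ord (z i0) ≤ P.ord (z i) := by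
    intro P
    obtain ⟨i0, -, h⟩ := Finset.exists_min_image Finset.univ (fun i => P.ord (z i))
      ⟨0, Finset.mem_univ _⟩
    exact ⟨i0, fun i => h i (Finset.mem_univ _)⟩
  choose j0 hj0 using hmin
  -- a large finite set
  set T : Finset (Place k K) := (Finset.univ.biUnion fun i => (finite_support (k := k) (z i)).toFinset) ∪
    (finite_support (k := k) W).toFinset ∪ (vo_fin (k := k) (K := K) der_ne).toFinset with hT
  have hTz : ∀ i, ∀ P : Place k K, P.ord (z i) ≠ 0 → P ∈ T := by
    intro i P hP
    rw [hT, Finset.mem_union, Finset.mem_union, Finset.mem_biUnion]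
    exact Or.inl (Or.inl ⟨i, Finset.mem_univ _, by simpa using hP⟩)
  have hTW : ∀ P : Place k K, P.ord W ≠ 0 → P ∈ T := by
    intro P hP
    rw [hT, Finset.mem_union, Finset.mem_union]
    exact Or.inl (Or.inr (by simpa using hP))
  have hTv : ∀ P : Place k K, P.ord (der k K (unif P)) ≠ 0 → P ∈ T := by
    intro P hP
    rw [hT, Finset.mem_union]
    exact Or.inr (by simpa using hP)
  have hH := height_eq z j0 hj0 T hTz
  have hR := radical_eq z T hTz
  have hC := fieldDegree_eq hD T hTv
  -- sum of the local bounds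
  have hloc : ∀ P ∈ T, (P.deg : ℤ) * ((c : ℤ) * P.ord (der k K (unif P)) + ∑ i, P.ord (z i) -
      P.ord (z (j0 P)) - (if ∃ i j, P.ord (z i) ≠ P.ord (z j) then (c : ℤ) else 0)) ≤
      (P.deg : ℤ) * P.ord W := by
    intro P _
    refine mul_le_mul_of_nonneg_left ?_ (by positivity)
    rw [← (hdet (j0 P)).2 P]
    exact local_bound z hz hsum w hw2 P (j0 P) (hdet (j0 P)).1
  have h1 := Finset.sum_le_sum hloc
  rw [sum_deg_ord W T hTW] at h1
  have h2 : ∑ P ∈ T, (P.deg : ℤ) * ((c : ℤ) * P.ord (der k K (unif P)) + ∑ i, P.ord (z i) -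
      P.ord (z (j0 P)) - (if ∃ i j, P.ord (z i) ≠ P.ord (z j) then (c : ℤ) else 0)) =
      (c : ℤ) * ∑ P ∈ T, (P.deg : ℤ) * P.ord (der k K (unif P)) +
        ∑ i, ∑ P ∈ T, (P.deg : ℤ) * P.ord (z i) - ∑ P ∈ T, (P.deg : ℤ) * P.ord (z (j0 P)) -
        c * ∑ P ∈ T, (if ∃ i j, P.ord (z i) ≠ P.ord (z j) then (P.deg : ℤ) else 0) := by
    rw [Finset.sum_comm, Finset.mul_sum, Finset.mul_sum, ← Finset.sum_add_distrib,
      ← Finset.sum_sub_distrib, ← Finset.sum_sub_distrib]
    refine Finset.sum_congr rfl fun P _ => ?_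
    rw [← Finset.mul_sum]
    split_ifs <;> ring
  rw [h2, hC, ← hR, Finset.sum_congr rfl fun i _ => sum_deg_ord (z i) T (hTz i),
    Finset.sum_const_zero] at h1
  have h3 : height k z ≤ c * (radical k z - fieldDegree D) := by
    rw [hH]; linarith
  have h4 : (c : ℤ) ≤ ((r + 1 - m).choose 2 : ℤ) := by exact_mod_cast hcb
  calc height k z ≤ c * (radical k z - fieldDegree D) := h3
    _ ≤ c * max 0 (radical k z - fieldDegree D) :=
        mul_le_mul_of_nonneg_left (le_max_right _ _) (by positivity)
    _ ≤ _ := mul_le_mul_of_nonneg_right h4 (le_max_left _ _)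

end Pool.Agent.N756.GP
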