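import Pool.Agent.N756.GP.Final

/-! Transcendence degree of points; generic points. -/

set_option autoImplicit false

open FF Pool.Agent.W603.LV

namespace Pool.Agent.N756.GP

section quo

variable {K : Type*} [Field K]

/-- the derivative of a quotient as a linear map -/
noncomputable def quo {n m : ℕ} (z : Fin n → K) (x : Fin m → Fin n × Fin n) :
    (Fin n → K) →ₗ[K] (Fin m → K) where
  toFun v l := (v (x l).1 * z (x l).2 - z (x l).1 * v (x l).2) / z (x l).2 ^ 2
  map_add' v w := by
    funext l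
    simp only [Pi.add_apply]; ring
  map_smul' c v := by
    funext l
    simp only [Pi.smul_apply, smul_eq_mul, RingHom.id_apply]; ring

theorem quo_der {n m : ℕ} (z : Fin n → K) (hz : ∀ i, z i ≠ 0) (x : Fin m → Fin n × Fin n)
    (δ : Derivation ℤ K K) :
    quo z x (fun i => δ (z i)) = fun l => δ (z (x l).1 / z (x l).2) := by
  funext l
  change (δ (z (x l).1) * z (x l).2 - z (x l).1 * δ (z (x l).2)) / z (x l).2 ^ 2 = _
  have h1 : δ (z (x l).1) = δ (z (x l).1 / z (x l).2) * z (x l).2 +
      (z (x l).1 / z (x l).2) * δ (z (x l).2) := by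
    conv_lhs => rw [← div_mul_cancel₀ (z (x l).1) (hz (x l).2)]
    rw [δ.leibniz]; simp only [smul_eq_mul]; ring
  rw [h1]
  have := hz (x l).2
  field_simp
  ring

end quo

section iface

variable {k K : Type*} [Field k] [Field K] [Algebra k K] [CharZero k] [IsFF k K] [CharZero K]

theorem hc_of_lin {r : ℕ} (z : Fin (r + 1) → K)
    (hlin : ∀ c : Fin (r + 1) → K, (∀ i, IsAlgebraic ℚ (c i)) → ∑ i, c i * z i = 0 →
      ∀ i j, c i = c j) (c : Fin r → K) (h1 : ∀ a l, dd k K a (c l) = 0)
    (h2 : ∑ l, c l * z (Fin.castSucc l) = 0) : c = 0 := by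
  have h3 := hlin (Fin.snoc c 0) (by
    intro i
    refine Fin.lastCases ?_ (fun i => ?_) i
    · rw [Fin.snoc_last]; exact isAlgebraic_zero
    · rw [Fin.snoc_castSucc]
      exact const_alg (k := k) fun δ hδ => h1 (some ⟨δ, hδ⟩) i) (by
    rw [Fin.sum_univ_castSucc]
    simp only [Fin.snoc_castSucc, Fin.snoc_last, zero_mul, add_zero]
    exact h2)
  funext l
  have := h3 l.castSucc (Fin.last r)
  rwa [Fin.snoc_castSucc, Fin.snoc_last] at this

theorem hm_of_indep {r m : ℕ} (z : Fin (r + 1) → K) (hz : ∀ i, z i ≠ 0) (hsum : ∑ i, z i = 0)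
    (hr : 1 ≤ r) (x : Fin m → Fin (r + 1) × Fin (r + 1))
    (hx : AlgebraicIndependent ℚ fun l => z (x l).1 / z (x l).2) :
    m + 1 ≤ fd (dd k K) (fun l : Fin r => z l.castSucc) 1 := by
  set y : Fin r → K := fun l => z l.castSucc with hy
  set V := U (dd k K) y ((1 + 1) ^ 2) with hV
  set Q : (Fin r → K) →ₗ[K] (Fin m → K) := quo z x ∘ₗ ext r with hQ
  set Q' : V →ₗ[K] (Fin m → K) := Q ∘ₗ V.subtype with hQ'
  have hact : ∀ w : List (Option (Alph k K)), w.length ≤ 1 → (fun l => act (dd k K) w (y l)) ∈ V :=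
    fun w hw => mem_U _ _ (rk_lt_iff.2 hw)
  have hrange : LinearMap.range Q' = ⊤ := by
    rw [eq_top_iff, ← span_top_of_orth
      {v : Fin m → K | ∃ a : Option (Alph k K), v = fun l => dd k K a (z (x l).1 / z (x l).2)} ?_]
    · rw [Submodule.span_le]
      rintro v ⟨a, rfl⟩
      refine ⟨⟨fun l => act (dd k K) [a] (y l), hact _ (by simp)⟩, ?_⟩
      change quo z x (ext r (fun l => act (dd k K) [a] (y l))) = _
      rw [ext_act (k := k) (dd k K) z hsum [a]]
      exact quo_der z hz x (dd k K a)
    · intro c hc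
      refine claimA (k := k) hx c fun δ hδ => ?_
      exact hc _ ⟨some ⟨δ, hδ⟩, rfl⟩
  have hker : 1 ≤ Module.finrank K (LinearMap.ker Q') := by
    have hnt : Nontrivial (LinearMap.ker Q') := by
      refine ⟨⟨⟨⟨fun l => act (dd k K) [] (y l), hact [] (by simp)⟩, ?_⟩, 0, ?_⟩⟩
      · rw [LinearMap.mem_ker]
        change quo z x (ext r (fun l => act (dd k K) [] (y l))) = 0
        rw [ext_act (k := k) (dd k K) z hsum []]
        funext l
        change (z (x l).1 * z (x l).2 - z (x l).1 * z (x l).2) / z (x l).2 ^ 2 = 0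
        rw [sub_self, zero_div]
      · intro h
        have h1 := congrArg Subtype.val (congrArg Subtype.val h)
        exact hz _ (congrFun h1 ⟨0, hr⟩)
    exact Module.finrank_pos (R := K) (M := LinearMap.ker Q')
  have hrn := LinearMap.finrank_range_add_finrank_ker Q'
  rw [hrange, finrank_top, Module.finrank_fin_fun] at hrn
  unfold fd
  rw [← hV]
  omega

omit [CharZero k] [IsFF k K] [CharZero K] in
theorem hc_of_full {r : ℕ} (y : Fin r → K) (hm : r ≤ fd (dd k K) y 1) (c : Fin r → K)
    (h1 : ∀ a l, dd k K a (c l) = 0) (h2 : ∑ l, c l * y l = 0) : c = 0 := by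
  set V := U (dd k K) y ((1 + 1) ^ 2) with hV
  have htop : V = ⊤ := by
    apply Submodule.eq_top_of_finrank_eq
    have h3 := Submodule.finrank_le V
    rw [Module.finrank_fin_fun] at h3 ⊢
    exact le_antisymm h3 hm
  have horth : ∀ v ∈ V, ∑ l, c l * v l = 0 := by
    intro v hv
    rw [hV] at hv
    unfold U at hv
    induction hv using Submodule.span_induction with
    | mem v hv =>
      obtain ⟨w, hw, rfl⟩ := hv
      rw [rk_lt_iff] at hw
      match w, hw with
      | [], _ => exact h2
      | [a], _ =>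
        change ∑ l, c l * dd k K a (y l) = 0
        have h3 := congrArg (dd k K a) h2
        rw [map_sum, map_zero] at h3
        rw [← h3]
        refine Finset.sum_congr rfl fun l _ => ?_
        rw [(dd k K a).leibniz, h1 a l, smul_zero, add_zero, smul_eq_mul]
      | _ :: _ :: _, h => simp at h
    | zero => simp
    | add x y _ _ hx hy =>
      simp only [Pi.add_apply, mul_add, Finset.sum_add_distrib, hx, hy, add_zero]
    | smul a x _ hx =>
      have : ∑ l, c l * (a • x) l = a * ∑ l, c l * x l := by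
        rw [Finset.mul_sum]
        exact Finset.sum_congr rfl fun l _ => by simp only [Pi.smul_apply, smul_eq_mul]; ring
      rw [this, hx, mul_zero]
  funext l
  have h3 := horth (Pi.single l 1) (by rw [htop]; trivial)
  rw [Finset.sum_eq_single l] at h3
  · simpa using h3
  · intro j _ hj
    rw [Pi.single_eq_of_ne hj, mul_zero]
  · intro h; exact absurd (Finset.mem_univ l) h

/-- The height inequality for points of transcendence degree at least `m`. -/
theorem bound_trdeg' {n m : ℕ} (z : Fin n → K) (hn : 3 ≤ n) (hz : ∀ i, z i ≠ 0)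
    (hsum : ∑ i, z i = 0)
    (x : Fin m → Fin n × Fin n) (hx : AlgebraicIndependent ℚ fun l => z (x l).1 / z (x l).2)
    (hlin : m + 2 < n → ∀ c : Fin n → K, (∀ i, IsAlgebraic ℚ (c i)) → ∑ i, c i * z i = 0 →
      ∀ i j, c i = c j) {D : Derivation k K K} (hD : D ≠ 0) :
    height k z ≤ ((n - m).choose 2 : ℤ) * max 0 (radical k z - fieldDegree D) := by
  obtain ⟨r, rfl⟩ : ∃ r, n = r + 1 := ⟨n - 1, by omega⟩
  have hm := hm_of_indep (k := k) z hz hsum (by omega) x hx
  refine main_bound z hz hsum ?_ (by omega) hm hD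
  by_cases h : m + 2 < r + 1
  · exact hc_of_lin z (hlin h)
  · exact hc_of_full _ (by omega)

/-- The height inequality for points of transcendence degree at least `m`. -/
theorem bound_trdeg {n m : ℕ} (z : Fin n → K) (hn : 3 ≤ n) (hz : ∀ i, z i ≠ 0)
    (hsum : ∑ i, z i = 0)
    (hlin : ∀ c : Fin n → K, (∀ i, IsAlgebraic ℚ (c i)) → ∑ i, c i * z i = 0 → ∀ i j, c i = c j)
    (x : Fin m → Fin n × Fin n) (hx : AlgebraicIndependent ℚ fun l => z (x l).1 / z (x l).2)
    {D : Derivation k K K} (hD : D ≠ 0) :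
    height k z ≤ ((n - m).choose 2 : ℤ) * max 0 (radical k z - fieldDegree D) := by
  obtain ⟨r, rfl⟩ : ∃ r, n = r + 1 := ⟨n - 1, by omega⟩
  exact main_bound z hz hsum (hc_of_lin z hlin) (by omega)
    (hm_of_indep z hz hsum (by omega) x hx) hD

end iface

section generic

open MvPolynomial

instance countable_mv (n : ℕ) : Countable (MvPolynomial (Fin n) ℚ) := by
  rw [← Cardinal.mk_le_aleph0_iff]
  refine (MvPolynomial.cardinalMk_le_max).trans ?_
  simp

/-- homogeneous polynomials with rational coefficients that do not vanish on the hyperplane -/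
def Good (n : ℕ) : Set (MvPolynomial (Fin n) ℚ) :=
  {Φ | (∃ d, Φ.IsHomogeneous d) ∧ ∃ a : Fin n → ℚ, ∑ i, a i = 0 ∧ eval a Φ ≠ 0}

theorem exists_enum (n : ℕ) : ∃ Φ : ℕ → MvPolynomial (Fin n) ℚ, Good n = Set.range Φ := by
  apply Set.Countable.exists_eq_range (Set.to_countable _)
  refine ⟨1, ⟨0, isHomogeneous_one _ _⟩, fun _ => 0, by simp, by simp⟩

/-- homogenization with respect to a new variable -/
noncomputable def hom {q : ℕ} (p : MvPolynomial (Fin q) ℚ) : MvPolynomial (Fin (q + 2)) ℚ :=
  ∑ s ∈ p.support, C (p.coeff s) * ((∏ l, X (Fin.castSucc (Fin.castSucc l)) ^ s l) *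
    X (Fin.castSucc (Fin.last q)) ^ (p.totalDegree - s.degree))

theorem hom_homogeneous {q : ℕ} (p : MvPolynomial (Fin q) ℚ) : (hom p).IsHomogeneous p.totalDegree := by
  unfold hom
  refine IsHomogeneous.sum _ _ _ fun s hs => ?_
  have h1 : s.degree ≤ p.totalDegree := le_totalDegree hs
  obtain ⟨e, he⟩ := Nat.exists_eq_add_of_le h1
  rw [he, Nat.add_sub_cancel_left]
  have h3 : s.degree = ∑ l, s l := Finsupp.degree_eq_sum s
  have h4 : (∏ l, (X (Fin.castSucc (Fin.castSucc l)) : MvPolynomial (Fin (q + 2)) ℚ) ^ s l).IsHomogeneous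
      s.degree := by
    rw [h3]
    refine IsHomogeneous.prod _ _ _ fun l _ => ?_
    have := (isHomogeneous_X ℚ (Fin.castSucc (Fin.castSucc l) : Fin (q + 2))).pow (s l)
    rwa [one_mul] at this
  have h5 : ((X (Fin.castSucc (Fin.last q)) : MvPolynomial (Fin (q + 2)) ℚ) ^ e).IsHomogeneous e := by
    have := (isHomogeneous_X ℚ (Fin.castSucc (Fin.last q) : Fin (q + 2))).pow e
    rwa [one_mul] at this
  have h6 := (isHomogeneous_C (Fin (q + 2)) (p.coeff s)).mul (h4.mul h5)
  rwa [zero_add] at h6

theorem aeval_hom {L : Type*} [Field L] [Algebra ℚ L] {q : ℕ} (p : MvPolynomial (Fin q) ℚ)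
    (z : Fin (q + 2) → L) (h : z (Fin.castSucc (Fin.last q)) ≠ 0) :
    aeval z (hom p) = z (Fin.castSucc (Fin.last q)) ^ p.totalDegree *
      aeval (fun l : Fin q => z (Fin.castSucc (Fin.castSucc l)) / z (Fin.castSucc (Fin.last q))) p := by
  unfold hom
  have e0 : aeval (fun l : Fin q => z (Fin.castSucc (Fin.castSucc l)) / z (Fin.castSucc (Fin.last q))) p =
      ∑ s ∈ p.support, aeval (fun l : Fin q => z (Fin.castSucc (Fin.castSucc l)) /
        z (Fin.castSucc (Fin.last q))) (monomial s (p.coeff s)) := by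
    conv_lhs => rw [p.as_sum]
    rw [map_sum]
  rw [e0, map_sum, Finset.mul_sum]
  refine Finset.sum_congr rfl fun s hs => ?_
  have h1 : s.degree ≤ p.totalDegree := le_totalDegree hs
  rw [map_mul, map_mul, map_prod, map_pow, aeval_X, aeval_monomial, aeval_C]
  simp only [map_pow, aeval_X]
  rw [Finsupp.prod_fintype _ _ (fun i => pow_zero _)]
  have h2 : ∏ i, (z (Fin.castSucc (Fin.castSucc i)) / z (Fin.castSucc (Fin.last q))) ^ s i =
      (∏ i, z (Fin.castSucc (Fin.castSucc i)) ^ s i) / z (Fin.castSucc (Fin.last q)) ^ s.degree := by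
    rw [Finsupp.degree_eq_sum, ← Finset.prod_pow_eq_pow_sum, ← Finset.prod_div_distrib]
    exact Finset.prod_congr rfl fun i _ => div_pow _ _ _
  rw [h2]
  have h3 : z (Fin.castSucc (Fin.last q)) ^ p.totalDegree =
      z (Fin.castSucc (Fin.last q)) ^ (p.totalDegree - s.degree) *
        z (Fin.castSucc (Fin.last q)) ^ s.degree := by
    rw [← pow_add]; congr 1; omega
  rw [h3]
  have h4 := pow_ne_zero s.degree h
  field_simp

theorem hom_good {q : ℕ} {p : MvPolynomial (Fin q) ℚ} (hp : p ≠ 0) : hom p ∈ Good (q + 2) := by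
  refine ⟨⟨_, hom_homogeneous p⟩, ?_⟩
  obtain ⟨a, ha⟩ : ∃ a : Fin q → ℚ, eval a p ≠ 0 := by
    by_contra hcon
    push Not at hcon
    exact hp (MvPolynomial.funext fun a => by rw [hcon, map_zero])
  set b : Fin (q + 1) → ℚ := Fin.snoc a 1 with hb
  set c : Fin (q + 2) → ℚ := Fin.snoc b (- ∑ i, b i) with hc
  have hc1 : c (Fin.castSucc (Fin.last q)) = 1 := by rw [hc, Fin.snoc_castSucc, hb, Fin.snoc_last]
  have hc2 : ∀ l : Fin q, c (Fin.castSucc (Fin.castSucc l)) = a l := by
    intro l; rw [hc, Fin.snoc_castSucc, hb, Fin.snoc_castSucc]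
  refine ⟨c, ?_, ?_⟩
  · rw [Fin.sum_univ_castSucc]
    simp only [hc, Fin.snoc_castSucc, Fin.snoc_last]
    ring
  · have h1 := aeval_hom p c (by rw [hc1]; exact one_ne_zero)
    rw [hc1, one_pow, one_mul] at h1
    simp only [hc2, div_one] at h1
    rw [← MvPolynomial.coe_aeval_eq_eval, RingHom.coe_coe] at ha ⊢
    rw [h1]
    exact ha

variable {k K : Type*} [Field k] [Field K] [Algebra k K] [CharZero k] [IsFF k K] [CharZero K]

theorem bound_generic {n : ℕ} (hn : 3 ≤ n) (z : Fin n → K) (hz : ∀ i, z i ≠ 0)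
    (hsum : ∑ i, z i = 0) (hgen : ∀ Φ ∈ Good n, aeval z Φ ≠ 0)
    {D : Derivation k K K} (hD : D ≠ 0) :
    height k z ≤ max 0 (radical k z - fieldDegree D) := by
  obtain ⟨q, rfl⟩ : ∃ q, n = q + 2 := ⟨n - 2, by omega⟩
  set e : Fin (q + 2) := Fin.castSucc (Fin.last q) with he
  have hx : AlgebraicIndependent ℚ (fun l : Fin q => z (Fin.castSucc (Fin.castSucc l)) / z e) := by
    rw [algebraicIndependent_iff]
    intro p hp
    by_contra hne
    apply hgen _ (hom_good hne)
    rw [aeval_hom p z (hz _), hp, mul_zero]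
  have hlin : ∀ c : Fin (q + 2) → K, (∀ i, IsAlgebraic ℚ (c i)) → ∑ i, c i * z i = 0 →
      ∀ i j, c i = c j := by
    intro c hc hcz
    set b : Fin (q + 1) → K := fun l => c (Fin.castSucc l) - c (Fin.last (q + 1)) with hb
    have hbz : ∑ l, b l * z (Fin.castSucc l) = 0 := by
      rw [Fin.sum_univ_castSucc] at hcz hsum
      simp only [hb, sub_mul, Finset.sum_sub_distrib, ← Finset.mul_sum]
      linear_combination hcz - c (Fin.last (q + 1)) * hsum
    have hbalg : ∀ l, b l ∈ algebraicClosure ℚ K := by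
      intro l
      rw [mem_algebraicClosure_iff]
      exact (hc _).sub (hc _)
    have hx' := hx.algebraicClosure
    set p : MvPolynomial (Fin q) (algebraicClosure ℚ K) :=
      ∑ l : Fin q, C ⟨b l.castSucc, hbalg _⟩ * X l + C ⟨b (Fin.last q), hbalg _⟩ with hp
    have hp0 : aeval (fun l : Fin q => z (Fin.castSucc (Fin.castSucc l)) / z e) p = 0 := by
      rw [hp, map_add, map_sum, aeval_C]
      simp only [map_mul, aeval_C, aeval_X]
      change ∑ l : Fin q, b l.castSucc * (z (Fin.castSucc (Fin.castSucc l)) / z e) +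
        b (Fin.last q) = 0
      rw [Fin.sum_univ_castSucc] at hbz
      have h1 : ∑ l : Fin q, b l.castSucc * (z (Fin.castSucc (Fin.castSucc l)) / z e) =
          (∑ l : Fin q, b l.castSucc * z (Fin.castSucc (Fin.castSucc l))) / z e := by
        rw [Finset.sum_div]
        exact Finset.sum_congr rfl fun l _ => by ring
      rw [h1]
      have h2 := hz e
      field_simp
      linear_combination hbz
    have hp1 : p = 0 := (algebraicIndependent_iff.1 hx') p hp0
    have hlast : b (Fin.last q) = 0 := by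
      have h1 := congrArg (MvPolynomial.eval 0) hp1
      rw [hp, map_add, map_sum] at h1
      simp only [map_mul, eval_C, eval_X, Pi.zero_apply, mul_zero, Finset.sum_const_zero, zero_add,
        map_zero] at h1
      exact congrArg Subtype.val h1
    have hrest : ∀ l : Fin q, b l.castSucc = 0 := by
      intro l
      have h1 := congrArg (MvPolynomial.eval (Pi.single l 1)) hp1
      rw [hp, map_add, map_sum] at h1
      simp only [map_mul, eval_C, eval_X, map_zero] at h1
      rw [Finset.sum_eq_single l] at h1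
      · rw [Pi.single_eq_same, mul_one] at h1
        have h2 := congrArg Subtype.val h1
        change b l.castSucc + b (Fin.last q) = 0 at h2
        rwa [hlast, add_zero] at h2
      · intro j _ hj
        rw [Pi.single_eq_of_ne hj, mul_zero]
      · intro h; exact absurd (Finset.mem_univ l) h
    have hall : ∀ i, c i = c (Fin.last (q + 1)) := by
      intro i
      refine Fin.lastCases rfl (fun i => ?_) i
      have hbi : b i = 0 := by
        refine Fin.lastCases hlast (fun i => ?_) i
        exact hrest i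
      exact sub_eq_zero.1 hbi
    intro i j
    rw [hall i, hall j]
  have := bound_trdeg (k := k) z hn hz hsum hlin
    (fun l : Fin q => (Fin.castSucc (Fin.castSucc l), e)) hx hD
  have h2 : q + 2 - q = 2 := by omega
  rw [h2, Nat.choose_self, Nat.cast_one, one_mul] at this
  exact this

end generic

end Pool.Agent.N756.GP
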