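import Pool.Agent.N756.GP.Loc
import Pool.Agent.TH410.FR.Deriv

/-! Derivations preserving the constants detect algebraic independence. -/

set_option autoImplicit false

open Polynomial FF Pool.Agent.W603.LV

namespace Pool.Agent.N756.GP

section general

variable {R F M : Type*} [CommRing R] [Field F] [Algebra R F] [AddCommGroup M] [Module F M]
  [Module R M]

theorem der_aeval (Δ : Derivation R F M) {S : Type*} [CommRing S] [Algebra S F]
    (h : ∀ s : S, Δ (algebraMap S F s) = 0) (f : F) (p : S[X]) :
    Δ (aeval f p) = aeval f (derivative p) • Δ f := by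
  induction p using Polynomial.induction_on' with
  | add p q hp hq => rw [map_add, map_add, hp, hq, derivative_add, map_add, add_smul]
  | monomial n a =>
    rw [aeval_monomial, Δ.leibniz, h, smul_zero, add_zero, Δ.leibniz_pow, derivative_monomial,
      aeval_monomial, map_mul, map_natCast, ← Nat.cast_smul_eq_nsmul F, smul_smul, smul_smul,
      mul_assoc]

/-- a derivation that kills `S` kills everything algebraic over `S` -/
theorem der_alg (Δ : Derivation R F M) {S : Type*} [Field S] [CharZero S] [Algebra S F]
    (h : ∀ s : S, Δ (algebraMap S F s) = 0) {f : F} (hf : IsAlgebraic S f) : Δ f = 0 := by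
  have h1 := der_aeval Δ h f (minpoly S f)
  rw [minpoly.aeval, map_zero] at h1
  have h2 : aeval f (derivative (minpoly S f)) ≠ 0 :=
    (minpoly.irreducible hf.isIntegral).separable.aeval_derivative_ne_zero (minpoly.aeval S f)
  exact (smul_eq_zero.1 h1.symm).resolve_left h2

theorem der_inv (Δ : Derivation R F M) {f : F} (hf : Δ f = 0) : Δ f⁻¹ = 0 := by
  rw [Δ.leibniz_inv, hf, smul_zero]

/-- a derivation that kills generators kills the generated field -/
theorem der_adjoin (Δ : Derivation R F M) {E L : Type*} [Field E] [Field L] [Algebra E L]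
    [Algebra L F] (s : Set L) (hs : ∀ x ∈ s, Δ (algebraMap L F x) = 0)
    (hE : ∀ e : E, Δ (algebraMap L F (algebraMap E L e)) = 0) {x : L}
    (hx : x ∈ IntermediateField.adjoin E s) : Δ (algebraMap L F x) = 0 := by
  induction hx using IntermediateField.adjoin_induction with
  | mem x hx => exact hs x hx
  | algebraMap e => exact hE e
  | add x y _ _ hx hy => rw [map_add, map_add, hx, hy, add_zero]
  | inv x _ hx => rw [map_inv₀]; exact der_inv Δ hx
  | mul x y _ _ hx hy => rw [map_mul, Δ.leibniz, hx, hy, smul_zero, smul_zero, add_zero]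

end general

section ff

variable {k K : Type*} [Field k] [Field K] [Algebra k K] [CharZero k]

/-- a derivation of `K` that kills a transcendence basis of `k` kills `k` -/
theorem der_k {R M : Type*} [CommRing R] [Algebra R K] [AddCommGroup M] [Module K M] [Module R M]
    (Δ : Derivation R K M)
    {ι : Type*} {b : ι → k} (hb : IsTranscendenceBasis ℚ b)
    (h1 : ∀ i, Δ (algebraMap k K (b i)) = 0) (c : k) : Δ (algebraMap k K c) = 0 := by
  have h2 := hb.isAlgebraic_field
  have h3 : ∀ s : IntermediateField.adjoin ℚ (Set.range b), Δ (algebraMap k K s) = 0 := by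
    rintro ⟨s, hs⟩
    refine der_adjoin Δ (Set.range b) ?_ ?_ hs
    · rintro _ ⟨i, rfl⟩; exact h1 i
    · intro e
      have e1 : algebraMap k K (algebraMap ℚ k e) = ((e.num : K) / (e.den : K)) := by
        rw [eq_ratCast, map_ratCast]
        exact (Rat.cast_def e)
      rw [e1, div_eq_mul_inv, Δ.leibniz, Δ.map_intCast, smul_zero, add_zero,
        der_inv Δ (Δ.map_natCast _), smul_zero]
  exact der_alg Δ (S := IntermediateField.adjoin ℚ (Set.range b)) h3 ((h2.isAlgebraic c).algebraMap)

variable [IsFF k K]

/-- a derivation of `K` that kills a transcendence basis of `k` and a separating element is zero -/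
theorem der_K {R M : Type*} [CommRing R] [Algebra R K] [AddCommGroup M] [Module K M] [Module R M]
    (Δ : Derivation R K M)
    {ι : Type*} {b : ι → k} (hb : IsTranscendenceBasis ℚ b)
    (h1 : ∀ i, Δ (algebraMap k K (b i)) = 0) {t : K} (ht : Transcendental k t) (h2 : Δ t = 0)
    (f : K) : Δ f = 0 := by
  have h3 := IsFF.isAlgebraic ht
  have h4 : ∀ s : IntermediateField.adjoin k {t}, Δ (algebraMap _ K s) = 0 := by
    rintro ⟨s, hs⟩
    refine der_adjoin (F := K) (L := K) Δ {t} ?_ ?_ hs
    · rintro _ rfl; exact h2
    · intro e; exact der_k Δ hb h1 e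
  have h5 : CharZero (IntermediateField.adjoin k {t}) :=
    charZero_of_injective_algebraMap (algebraMap k (IntermediateField.adjoin k {t})).injective
  exact der_alg Δ h4 (h3.isAlgebraic f)

variable [CharZero K]

/-- Derivations that preserve the constants detect algebraic independence. -/
theorem claimA {m : ℕ} {x : Fin m → K} (hx : AlgebraicIndependent ℚ x) (c : Fin m → K)
    (h : ∀ δ : Derivation ℤ K K, Pres k δ → ∑ l, c l * δ (x l) = 0) : c = 0 := by
  classical
  obtain ⟨s, hb⟩ := exists_isTranscendenceBasis ℚ k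
  obtain ⟨t, ht⟩ := IsFF.exists_transcendental (k := k) (K := K)
  have hty : AlgebraicIndependent k (fun _ : Unit => t) := by
    rw [algebraicIndependent_unique_type_iff]
    exact ht
  have hv := hb.1.sumElim_comp hty
  set v : Unit ⊕ s → K := Sum.elim (fun _ : Unit => t) (algebraMap k K ∘ ((↑) : s → k)) with hvd
  obtain ⟨D, hD⟩ := Pool.Agent.TH410.FR.exists_dual hv
  obtain ⟨Dk, hDk⟩ := Pool.Agent.TH410.FR.exists_dual hb.1
  have hPres : ∀ o, Pres k ((D o).restrictScalars ℤ) := by
    intro o
    -- the corresponding derivation of `k`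
    obtain ⟨e, he⟩ : ∃ e : Derivation ℚ k k, ∀ i : s, D o (algebraMap k K i) = algebraMap k K (e i) := by
      rcases o with o | o
      · refine ⟨0, fun i => ?_⟩
        have := hD (Sum.inl o) (Sum.inr i)
        rw [if_neg (by simp)] at this
        rw [Derivation.zero_apply, map_zero]
        exact this
      · refine ⟨Dk o, fun i => ?_⟩
        have h1 := hD (Sum.inr o) (Sum.inr i)
        have h2 := hDk o i
        rw [h2]
        have h3 : D (Sum.inr o) (algebraMap k K i) = if (Sum.inr o : Unit ⊕ s) = Sum.inr i then 1 else 0 := h1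
        rw [h3]
        by_cases h4 : o = i
        · rw [if_pos (by rw [h4]), if_pos h4, map_one]
        · rw [if_neg (by simpa using h4), if_neg h4, map_zero]
    intro c
    refine ⟨e c, ?_⟩
    change D o (algebraMap k K c) = algebraMap k K (e c)
    let Δ : Derivation ℚ k K := (D o).compAlgebraMap k - (Algebra.linearMap k K).compDer e
    have hΔ : ∀ c, Δ c = D o (algebraMap k K c) - algebraMap k K (e c) := fun c => rfl
    have h3 : ∀ a : IntermediateField.adjoin ℚ (Set.range ((↑) : s → k)),
        Δ (algebraMap _ k a) = 0 := by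
      rintro ⟨a, ha⟩
      refine der_adjoin (F := k) (L := k) Δ _ ?_ ?_ ha
      · rintro _ ⟨i, rfl⟩
        change Δ (i : k) = 0
        rw [hΔ, he, sub_self]
      · intro q
        exact Δ.map_algebraMap q
    have h4 := der_alg Δ h3 (hb.isAlgebraic_field.isAlgebraic c)
    rw [hΔ] at h4
    exact sub_eq_zero.1 h4
  -- the differential
  set N : Submodule K (Ω[K⁄ℚ]) :=
    Submodule.span K (Set.range fun o => KaehlerDifferential.D ℚ K (v o)) with hN
  have hzero : ∀ f : K, N.mkQ (KaehlerDifferential.D ℚ K f) = 0 := by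
    let Δ : Derivation ℚ K (Ω[K⁄ℚ] ⧸ N) := N.mkQ.compDer (KaehlerDifferential.D ℚ K)
    have h1 : ∀ o, Δ (v o) = 0 := by
      intro o
      change N.mkQ (KaehlerDifferential.D ℚ K (v o)) = 0
      rw [Submodule.mkQ_apply, Submodule.Quotient.mk_eq_zero]
      exact Submodule.subset_span ⟨o, rfl⟩
    intro f
    exact der_K Δ hb (fun i => h1 (Sum.inr i)) ht (h1 (Sum.inl ())) f
  set ω : Ω[K⁄ℚ] := ∑ l, c l • KaehlerDifferential.D ℚ K (x l) with hω
  have hωN : ω ∈ N := by
    refine Submodule.sum_mem _ fun l _ => Submodule.smul_mem _ _ ?_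
    have := hzero (x l)
    rwa [Submodule.mkQ_apply, Submodule.Quotient.mk_eq_zero] at this
  rw [hN, Finsupp.mem_span_range_iff_exists_finsupp] at hωN
  obtain ⟨κ, hκ⟩ := hωN
  have hκ0 : ∀ o, κ o = 0 := by
    intro o
    have h1 := congrArg (D o).liftKaehlerDifferential hκ
    rw [Finsupp.sum, map_sum, hω, map_sum] at h1
    simp only [map_smul, Derivation.liftKaehlerDifferential_comp_D, smul_eq_mul, hD] at h1
    have h2 : ∑ l, c l * D o (x l) = 0 := h _ (hPres o)
    rw [h2] at h1
    simp only [mul_ite, mul_one, mul_zero, Finset.sum_ite_eq] at h1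
    by_contra hne
    rw [if_pos (Finsupp.mem_support_iff.2 hne)] at h1
    exact hne h1
  have hω0 : ω = 0 := by
    rw [← hκ]
    exact Finset.sum_eq_zero fun o _ => by beta_reduce; rw [hκ0 o, zero_smul]
  obtain ⟨Δ, hΔ⟩ := Pool.Agent.TH410.FR.exists_dual hx
  funext l
  have h1 := congrArg (Δ l).liftKaehlerDifferential hω0
  rw [hω, map_sum, map_zero] at h1
  simpa only [map_smul, Derivation.liftKaehlerDifferential_comp_D, smul_eq_mul, hΔ, mul_ite,
    mul_one, mul_zero, Finset.sum_ite_eq, Finset.mem_univ, if_true, Pi.zero_apply] using h1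

/-- the constants of all derivations preserving `k` are algebraic numbers -/
theorem const_alg {f : K} (h : ∀ δ : Derivation ℤ K K, Pres k δ → δ f = 0) : IsAlgebraic ℚ f := by
  by_contra hcon
  have h1 : AlgebraicIndependent ℚ (fun _ : Fin 1 => f) := by
    rw [algebraicIndependent_unique_type_iff]
    exact hcon
  have h2 := claimA (k := k) h1 (fun _ => 1) (fun δ hδ => by simp [h δ hδ])
  exact one_ne_zero (congrFun h2 0)

end ff

end Pool.Agent.N756.GP
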