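import Pool.Agent.W603.LV.Ex

/-! Derivations of a function field that preserve the field of constants: local behaviour at a
place, for an arbitrary field of constants of characteristic zero. -/

set_option autoImplicit false

open Polynomial FF Pool.Agent.W603.LV

namespace Pool.Agent.N756.GP

section basic
variable {k K : Type*} [Field k] [Field K] [Algebra k K]

variable (k) in
/-- `δ` maps `k` to `k`. -/
def Pres (δ : Derivation ℤ K K) : Prop :=
  ∀ c : k, ∃ c' : k, δ (algebraMap k K c) = algebraMap k K c'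

variable (k) in
open Classical in
/-- the induced map on `k` -/
noncomputable def dk (δ : Derivation ℤ K K) (c : k) : k :=
  if h : ∃ c' : k, δ (algebraMap k K c) = algebraMap k K c' then h.choose else 0

theorem dk_spec {δ : Derivation ℤ K K} (h : Pres k δ) (c : k) :
    algebraMap k K (dk k δ c) = δ (algebraMap k K c) := by
  unfold dk
  rw [dif_pos (h c)]
  exact (h c).choose_spec.symm

/-- coefficientwise derivative of a polynomial -/
noncomputable def pd (δ : Derivation ℤ K K) (p : k[X]) : k[X] :=
  ∑ i ∈ p.support, monomial i (dk k δ (p.coeff i))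

theorem map_aeval {δ : Derivation ℤ K K} (h : Pres k δ) (t : K) (p : k[X]) :
    δ (aeval t p) = aeval t (pd δ p) + aeval t (derivative p) * δ t := by
  have h1 : aeval t p = ∑ i ∈ p.support, algebraMap k K (p.coeff i) * t ^ i := by
    conv_lhs => rw [p.as_sum_support]
    rw [map_sum]
    exact Finset.sum_congr rfl fun i _ => by rw [aeval_monomial]
  have h2 : aeval t (pd δ p) = ∑ i ∈ p.support, δ (algebraMap k K (p.coeff i)) * t ^ i := by
    unfold pd
    rw [map_sum]
    exact Finset.sum_congr rfl fun i _ => by rw [aeval_monomial, dk_spec h]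
  have h3 : aeval t (derivative p) =
      ∑ i ∈ p.support, algebraMap k K (p.coeff i) * (i : K) * t ^ (i - 1) := by
    conv_lhs => rw [p.as_sum_support]
    rw [derivative_sum, map_sum]
    refine Finset.sum_congr rfl fun i _ => ?_
    rw [derivative_monomial, aeval_monomial, map_mul, map_natCast]
  rw [h1, h2, h3, map_sum, Finset.sum_mul, ← Finset.sum_add_distrib]
  refine Finset.sum_congr rfl fun i _ => ?_
  rw [δ.leibniz, δ.leibniz_pow]
  simp only [smul_eq_mul, nsmul_eq_mul]
  ring

theorem pres_restrict (D : Derivation k K K) : Pres k (D.restrictScalars ℤ) := by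
  intro c
  refine ⟨0, ?_⟩
  rw [map_zero]
  exact D.map_algebraMap c

theorem red_aeval (P : Place k K) {f : K} (hf : Ge P 0 f) (g : k[X]) :
    P.red (aeval f g) = aeval (P.red f) g := by
  induction g using Polynomial.induction_on' with
  | add p q hp hq =>
    rw [map_add, map_add, P.red_add (ge_aeval P hf p) (ge_aeval P hf q), hp, hq]
  | monomial n a =>
    have h1 : P.Reg (f ^ n) := by
      have := hf.pow n
      rwa [mul_zero] at this
    rw [aeval_monomial, aeval_monomial, P.red_mul (P.reg_const a) h1,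
      P.red_pow hf, P.algebraMap_RF]

/-- reduction is a unit iff the order is zero -/
theorem ord_of_red_ne {P : Place k K} {f : K} (hf : Ge P 0 f) (h : P.red f ≠ 0) :
    f ≠ 0 ∧ P.ord f = 0 := by
  rw [Ne, P.red_eq_zero_iff hf] at h
  push Not at h
  refine ⟨h.1, le_antisymm h.2 (hf.resolve_left h.1)⟩

theorem ge_one_of_red {P : Place k K} {f : K} (hf : Ge P 0 f) (h : P.red f = 0) : Ge P 1 f := by
  rw [P.red_eq_zero_iff hf] at h
  rcases h with h | h
  · exact Or.inl h
  · exact Or.inr h

theorem Ge.mono' {P : Place k K} {N M : ℤ} {f : K} (hf : Ge P N f) (h : M ≤ N) : Ge P M f :=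
  hf.mono h

end basic

section weak

variable {k K : Type*} [Field k] [Field K] [Algebra k K] [CharZero k] [IsFF k K]

open IntermediateField in
/-- There are finitely many functions that generate the integral closure of `k[t]`, and every
function regular at a place where `t` is regular is a quotient of integral ones, the denominator
being a unit at the place. -/
theorem exists_gens {t : K} (ht : Transcendental k t) : ∃ s : Finset K,
    ∀ P : Place k K, Ge P 0 t → (∀ b ∈ s, Ge P 0 b) ∧ ∀ f : K, Ge P 0 f →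
      ∃ (a d : K → k[X]), (∑ b ∈ s, aeval t (d b) * b) ≠ 0 ∧
        P.ord (∑ b ∈ s, aeval t (d b) * b) = 0 ∧
        f * ∑ b ∈ s, aeval t (d b) * b = ∑ b ∈ s, aeval t (a b) * b := by
  classical
  open scoped algebraAdjoinAdjoin in
  let A := Algebra.adjoin k {t}
  let e := Polynomial.algEquivOfTranscendental k t ht
  have hpid : IsPrincipalIdealRing A := IsPrincipalIdealRing.of_surjective e.toRingEquiv e.surjective
  have hded : IsDedekindDomain A := inferInstance
  have hfin := IsFF.finite ht
  have hchar : CharZero k⟮t⟯ := charZero_of_injective_algebraMap (algebraMap k k⟮t⟯).injective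
  have hsep : Algebra.IsSeparable k⟮t⟯ K := inferInstance
  let B := integralClosure A K
  have : IsDedekindDomain B := integralClosure.isDedekindDomain A k⟮t⟯ K
  have : IsFractionRing B K := integralClosure.isFractionRing_of_finite_extension k⟮t⟯ K
  have hBfin : Module.Finite A B := IsIntegralClosure.finite A k⟮t⟯ K B
  have hsc : IsScalarTower k B K := by
    refine IsScalarTower.of_algebraMap_eq fun c => ?_
    rw [IsScalarTower.algebraMap_apply k A B, ← IsScalarTower.algebraMap_apply A B K,
      ← IsScalarTower.algebraMap_apply k A K]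
  obtain ⟨s0, hs0⟩ := hBfin.fg_top
  have hA : ∀ a : A, ∃ q : k[X], aeval t q = (a : K) := by
    rintro ⟨a, ha⟩
    change a ∈ Algebra.adjoin k {t} at ha
    rw [Algebra.adjoin_singleton_eq_range_aeval] at ha
    exact ha
  choose q hq using hA
  have hB : ∀ b : B, ∃ a : K → k[X],
      (b : K) = ∑ x ∈ s0.image (Subtype.val : B → K), aeval t (a x) * x := by
    intro b
    have hb : b ∈ Submodule.span A (s0 : Set B) := by rw [hs0]; trivial
    obtain ⟨c, hc⟩ := Submodule.mem_span_finset.1 hb
    refine ⟨fun x => if h : x ∈ s0.image (Subtype.val : B → K) then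
      q (c (Finset.mem_image.1 h).choose) else 0, ?_⟩
    rw [Finset.sum_image (fun x _ y _ h => Subtype.ext h), ← hc.2]
    have h1 : ((∑ a ∈ s0, c a • a : B) : K) = ∑ a ∈ s0, ((c a : A) : K) * (a : K) := by
      have h2 := map_sum (algebraMap B K) (fun a => c a • a) s0
      refine Eq.trans h2 ?_
      refine Finset.sum_congr rfl fun a _ => ?_
      rw [Algebra.smul_def, map_mul, ← IsScalarTower.algebraMap_apply A B K]
      rfl
    rw [h1]
    refine Finset.sum_congr rfl fun x hx => ?_
    have h3 : (x : K) ∈ s0.image (Subtype.val : B → K) := Finset.mem_image_of_mem _ hx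
    beta_reduce
    rw [dif_pos h3, hq]
    have h4 := (Finset.mem_image.1 h3).choose_spec
    have h5 : (Finset.mem_image.1 h3).choose = x := Subtype.ext h4.2
    rw [h5]
  refine ⟨s0.image (Subtype.val : B → K), fun P hP => ?_⟩
  have hregA : ∀ a : A, P.Reg (algebraMap A K a) := by
    intro a
    change P.Reg (a : K)
    rw [← hq a]
    exact ge_aeval P hP _
  have hregB : ∀ b : B, P.Reg (algebraMap B K b) := fun b => P.reg_of_isIntegral hregA b.2
  refine ⟨?_, ?_⟩
  · intro b hb
    obtain ⟨x, -, rfl⟩ := Finset.mem_image.1 hb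
    exact hregB x
  · intro f hf
    obtain ⟨Q, hQ⟩ := exists_placeOf_eq (k := k) (B := B) P hregB
    have hf1 : Q.valuation K f ≤ 1 := by
      by_cases hf0 : f = 0
      · rw [hf0, map_zero]; exact zero_le_one
      · rw [← placeOf_nonneg (k := k) (L := K) Q hf0, hQ]
        exact hf.resolve_left hf0
    obtain ⟨n, d, hnd⟩ := IsDedekindDomain.HeightOneSpectrum.exists_primeCompl_mul_eq_of_integer Q f hf1
    obtain ⟨a, ha⟩ := hB n
    obtain ⟨d', hd'⟩ := hB (d : B)
    have hd : P.red (algebraMap B K d) ≠ 0 := by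
      rw [← hQ, Ne, placeOf_red_eq_zero]
      exact d.2
    have h2 := ord_of_red_ne (hregB d) hd
    refine ⟨a, d', ?_, ?_, ?_⟩
    · rw [← hd']; exact h2.1
    · rw [← hd']; exact h2.2
    · rw [← hd', ← ha]; exact hnd

omit [CharZero k] [IsFF k K] in
/-- a bound on generators gives a bound on all regular functions -/
theorem bound_of_gens {t : K} {s : Finset K} {P : Place k K} (hP : Ge P 0 t)
    (hs : (∀ b ∈ s, Ge P 0 b) ∧ ∀ f : K, Ge P 0 f →
      ∃ (a d : K → k[X]), (∑ b ∈ s, aeval t (d b) * b) ≠ 0 ∧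
        P.ord (∑ b ∈ s, aeval t (d b) * b) = 0 ∧
        f * ∑ b ∈ s, aeval t (d b) * b = ∑ b ∈ s, aeval t (a b) * b)
    {δ : Derivation ℤ K K} (hδ : Pres k δ) {c : ℤ} (hc0 : c ≤ 0) (hct : Ge P c (δ t))
    (hcb : ∀ b ∈ s, Ge P c (δ b)) {f : K} (hf : Ge P 0 f) : Ge P c (δ f) := by
  have hW : ∀ a : K → k[X], Ge P c (δ (∑ b ∈ s, aeval t (a b) * b)) := by
    intro a
    rw [map_sum]
    refine Ge.sum _ _ fun b hb => ?_
    rw [δ.leibniz, map_aeval hδ]
    simp only [smul_eq_mul]
    have h1 := (ge_aeval P hP (a b)).mul (hcb b hb)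
    have h2 := ((ge_aeval P hP (pd δ (a b))).mono hc0)
    have h3 := (ge_aeval P hP (derivative (a b))).mul hct
    rw [zero_add] at h1 h3
    have h4 := (hs.1 b hb).mul (h2.add h3)
    rw [zero_add] at h4
    exact h1.add h4
  have hR : ∀ a : K → k[X], Ge P 0 (∑ b ∈ s, aeval t (a b) * b) := by
    intro a
    refine Ge.sum _ _ fun b hb => ?_
    simpa using (ge_aeval P hP (a b)).mul (hs.1 b hb)
  obtain ⟨a, d, h0, h1, h2⟩ := hs.2 f hf
  have h3 := congrArg δ h2
  rw [δ.leibniz] at h3
  simp only [smul_eq_mul] at h3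
  have h4 : (∑ b ∈ s, aeval t (d b) * b) * δ f =
      δ (∑ b ∈ s, aeval t (a b) * b) - f * δ (∑ b ∈ s, aeval t (d b) * b) := by
    rw [← h3]; ring
  have h5 := hf.mul (hW d)
  rw [zero_add] at h5
  have h6 : Ge P (c + 0) ((∑ b ∈ s, aeval t (d b) * b) * δ f) := by
    rw [h4, add_zero]; exact (hW a).sub h5
  exact Ge.of_mul' h0 h1 h6

/-- A derivation preserving `k` that is regular at one uniformizer is regular. -/
theorem pres_reg (P : Place k K) {π : K} (hπ : P.ord π = 1) {δ : Derivation ℤ K K}
    (hδ : Pres k δ) (hδπ : Ge P 0 (δ π)) {f : K} (hf : Ge P 0 f) : Ge P 0 (δ f) := by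
  classical
  have hπ0 : π ≠ 0 := by
    rintro rfl
    rw [P.ord_zero] at hπ; omega
  have hπg : Ge P 0 π := Or.inr (by omega)
  have ht : Transcendental k π := P.transcendental_of_ord_ne (by omega)
  obtain ⟨s, hs⟩ := exists_gens (k := k) ht
  -- weak bound
  obtain ⟨c, hc⟩ : ∃ c : ℕ, ∀ b ∈ s, Ge P (-(c : ℤ)) (δ b) := by
    refine ⟨s.sup fun b => (-P.ord (δ b)).toNat, fun b hb => ?_⟩
    by_cases h0 : δ b = 0
    · exact Or.inl h0
    · right
      have := Finset.le_sup (f := fun b => (-P.ord (δ b)).toNat) hb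
      have h1 : (-P.ord (δ b)) ≤ ((s.sup fun b => (-P.ord (δ b)).toNat : ℕ) : ℤ) :=
        (Int.self_le_toNat _).trans (by exact_mod_cast this)
      omega
  have hweak : ∀ f : K, Ge P 0 f → Ge P (-(c : ℤ)) (δ f) := fun f hf =>
    bound_of_gens hπg (hs P hπg) hδ (by omega) (hδπ.mono (by omega)) hc hf
  -- descent
  clear hc
  induction c with
  | zero => simpa using hweak f hf
  | succ c ih =>
    refine ih fun f hf => ?_
    have halg : IsIntegral k (P.red f) := Algebra.IsIntegral.isIntegral _
    set g := minpoly k (P.red f) with hg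
    have hg0 : aeval (P.red f) g = 0 := minpoly.aeval k _
    have hg1 : aeval (P.red f) (derivative g) ≠ 0 :=
      (minpoly.irreducible halg).separable.aeval_derivative_ne_zero hg0
    have h1 : Ge P 1 (aeval f g) := ge_one_of_red (ge_aeval P hf g) (by rw [red_aeval P hf, hg0])
    have h2 := ord_of_red_ne (ge_aeval P hf (derivative g)) (by rwa [red_aeval P hf])
    have h3 : Ge P 0 (aeval f g / π) := by
      apply Ge.of_mul' (h := π) (m := 1) hπ0 hπ
      rw [mul_div_cancel₀ _ hπ0]; simpa using h1
    have h4 : δ (aeval f g) = π * δ (aeval f g / π) + (aeval f g / π) * δ π := by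
      conv_lhs => rw [← mul_div_cancel₀ (aeval f g) hπ0]
      rw [δ.leibniz]; simp only [smul_eq_mul]
    rw [map_aeval hδ] at h4
    have h5 : Ge P (-(c : ℤ)) (π * δ (aeval f g / π)) := by
      have h10 : Ge P 1 π := Or.inr hπ.ge
      have := h10.mul (hweak _ h3)
      exact this.mono (by push_cast; omega)
    have h6 : Ge P (-(c : ℤ)) ((aeval f g / π) * δ π) := (h3.mul hδπ).mono (by omega)
    have h7 : Ge P (-(c : ℤ)) (aeval f (pd δ g)) := (ge_aeval P hf _).mono (by omega)
    have h8 : aeval f (derivative g) * δ f =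
        π * δ (aeval f g / π) + (aeval f g / π) * δ π - aeval f (pd δ g) := by
      rw [← h4]; ring
    have h9 : Ge P (-(c : ℤ) + 0) (aeval f (derivative g) * δ f) := by
      rw [h8, add_zero]; exact (h5.add h6).sub h7
    exact Ge.of_mul' h2.1 h2.2 h9

theorem der_unif_ne {D : Derivation k K K} (hD : D ≠ 0) (P : Place k K) {π : K}
    (hπ : P.ord π = 1) : D π ≠ 0 :=
  der_ne_zero hD (P.transcendental_of_ord_ne (by omega))

/-- the order of a derivation vanishes at almost all places -/
theorem vo_fin {D : Derivation k K K} (hD : D ≠ 0) :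
    {P : Place k K | P.ord (D (unif P)) ≠ 0}.Finite := by
  classical
  obtain ⟨t, ht⟩ := IsFF.exists_transcendental (k := k) (K := K)
  obtain ⟨s, hs⟩ := exists_gens (k := k) ht
  have hDt := der_ne_zero hD ht
  set δ : Derivation ℤ K K := ((D t)⁻¹ • D).restrictScalars ℤ with hδd
  have hδa : ∀ f, δ f = (D t)⁻¹ * D f := fun f => rfl
  have hδ : Pres k δ := pres_restrict _
  have hδt : δ t = 1 := by rw [hδa]; exact inv_mul_cancel₀ hDt
  have hfin : (({P : Place k K | P.ord t ≠ 0} ∪ {P | P.ord (D t) ≠ 0}) ∪
      (⋃ b ∈ s, {P : Place k K | P.ord (δ b) ≠ 0})).Finite :=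
    ((finite_support t).union (finite_support _)).union
      (Set.Finite.biUnion s.finite_toSet fun b _ => finite_support _)
  refine hfin.subset fun P hP => ?_
  by_contra hcon
  simp only [Set.mem_union, Set.mem_ofPred_eq, not_or, not_not, Set.mem_iUnion, not_exists] at hcon
  obtain ⟨⟨h1, h2⟩, h3⟩ := hcon
  have ht0 : Ge P 0 t := Or.inr h1.ge
  have hreg : ∀ f, Ge P 0 f → Ge P 0 (δ f) := fun f hf =>
    bound_of_gens ht0 (hs P ht0) hδ le_rfl (by rw [hδt]; exact Ge.one)
      (fun b hb => Or.inr (h3 b hb).ge) hf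
  have hπ := ord_unif P
  have hπ0 : unif P ≠ 0 := by
    intro h
    rw [h, P.ord_zero] at hπ; omega
  set π := unif P with hπd
  have halg : IsIntegral k (P.red t) := Algebra.IsIntegral.isIntegral _
  set g := minpoly k (P.red t) with hg
  have hg0 : aeval (P.red t) g = 0 := minpoly.aeval k _
  have hg1 : aeval (P.red t) (derivative g) ≠ 0 :=
    (minpoly.irreducible halg).separable.aeval_derivative_ne_zero hg0
  have h4 : Ge P 1 (aeval t g) := ge_one_of_red (ge_aeval P ht0 g) (by rw [red_aeval P ht0, hg0])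
  have h5 := ord_of_red_ne (ge_aeval P ht0 (derivative g)) (by rwa [red_aeval P ht0])
  have h6 : Ge P 0 (aeval t g / π) := by
    apply Ge.of_mul' (h := π) (m := 1) hπ0 hπ
    rw [mul_div_cancel₀ _ hπ0]; simpa using h4
  have h7 : aeval t (derivative g) = π * δ (aeval t g / π) + (aeval t g / π) * δ π := by
    have h8 : δ (aeval t g) = π * δ (aeval t g / π) + (aeval t g / π) * δ π := by
      conv_lhs => rw [← mul_div_cancel₀ (aeval t g) hπ0]
      rw [δ.leibniz]; simp only [smul_eq_mul]
    rw [← h8, hδa, Derivation.map_aeval, smul_eq_mul]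
    field_simp
  have hδπ0 : δ π ≠ 0 := by
    rw [hδa]
    exact mul_ne_zero (inv_ne_zero hDt) (der_unif_ne hD P hπ)
  have hord : P.ord (δ π) = 0 := by
    have h8 := (hreg π (Or.inr (by omega))).resolve_left hδπ0
    by_contra hne
    have h9 : Ge P 1 (δ π) := Or.inr (by omega)
    have hπ1 : Ge P 1 π := Or.inr hπ.ge
    have h10 : Ge P 1 (π * δ (aeval t g / π)) := by
      simpa using hπ1.mul (hreg _ h6)
    have h11 : Ge P 1 ((aeval t g / π) * δ π) := by simpa using h6.mul h9
    have h12 := h10.add h11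
    rw [← h7] at h12
    have := h12.resolve_left h5.1
    omega
  apply hP
  change P.ord (D π) = 0
  have h8 : D π = D t * δ π := by rw [hδa]; field_simp
  rw [h8, P.ord_mul hDt hδπ0, h2, hord]; rfl

end weak

end Pool.Agent.N756.GP
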