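import Pool.Agent.N756.GP.Indep
import Pool.Agent.N756.GP.Basis
import Pool.Agent.N756.GP.Defs

/-! The height inequality. -/

set_option autoImplicit false

open Polynomial FF Pool.Agent.W603.LV

namespace Pool.Agent.N756.GP

section local_
variable {k K : Type*} [Field k] [Field K] [Algebra k K]

theorem Ge_det {r : ℕ} {P : Place k K} (M : Matrix (Fin r) (Fin r) K) (a b : Fin r → ℤ)
    (h : ∀ i l, Ge P (a l - b i) (M i l)) : Ge P (∑ l, a l - ∑ i, b i) M.det := by
  rw [Matrix.det_apply]
  refine Ge.sum _ _ fun σ _ => ?_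
  have h1 : Ge P (∑ l, a l - ∑ i, b i) (∏ l, M (σ l) l) := by
    have h2 := Ge.prod (P := P) Finset.univ (fun l => M (σ l) l) (fun l => a l - b (σ l))
      (fun l _ => h (σ l) l)
    rwa [Finset.sum_sub_distrib, Equiv.sum_comp σ b] at h2
  rcases Int.units_eq_one_or (Equiv.Perm.sign σ) with h3 | h3
  · rw [h3, one_smul]; exact h1
  · rw [h3, Units.neg_smul, one_smul]; exact h1.neg

variable {A : Type*}

theorem act_add (d : Option A → Derivation ℤ K K) (w : List (Option A)) (f g : K) :
    act d w (f + g) = act d w f + act d w g := by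
  induction w with
  | nil => rfl
  | cons a w ih => simp only [act, ih, map_add]

theorem act_zero (d : Option A → Derivation ℤ K K) (w : List (Option A)) : act d w 0 = 0 := by
  induction w with
  | nil => rfl
  | cons a w ih => simp only [act, ih, map_zero]

theorem act_neg (d : Option A → Derivation ℤ K K) (w : List (Option A)) (f : K) :
    act d w (-f) = - act d w f := by
  induction w with
  | nil => rfl
  | cons a w ih => simp only [act, ih, map_neg]

theorem act_sum (d : Option A → Derivation ℤ K K) (w : List (Option A)) {ι : Type*}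
    (s : Finset ι) (f : ι → K) : act d w (∑ i ∈ s, f i) = ∑ i ∈ s, act d w (f i) := by
  classical
  induction s using Finset.induction_on with
  | empty => simp [act_zero]
  | insert a s ha ih => rw [Finset.sum_insert ha, Finset.sum_insert ha, act_add, ih]

theorem act_ge0 {P : Place k K} (d : Option A → Derivation ℤ K K)
    (h : ∀ a f, Ge P 0 f → Ge P 0 (d a f)) (w : List (Option A)) {f : K} (hf : Ge P 0 f) :
    Ge P 0 (act d w f) := by
  induction w with
  | nil => exact hf
  | cons a w ih => exact h a _ ih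

theorem act_ge {P : Place k K} (d : Option A → Derivation ℤ K K)
    (h0 : ∀ (N : ℤ) f, Ge P N f → Ge P (N - 1) (d none f))
    (h1 : ∀ a (N : ℤ) f, Ge P N f → Ge P N (d (some a) f)) (w : List (Option A)) {N : ℤ} {f : K}
    (hf : Ge P N f) : Ge P (N - num w) (act d w f) := by
  induction w with
  | nil => simpa [act, num] using hf
  | cons a w ih =>
    cases a with
    | none =>
      have := h0 _ _ ih
      simp only [act, num]
      exact this.mono (by push_cast; omega)
    | some a =>
      simp only [act, num]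
      exact h1 a _ _ ih

end local_

section ext

variable {K : Type*} [Field K] {A : Type*}

/-- completion of a vector to a vector with sum zero -/
noncomputable def ext (r : ℕ) : (Fin r → K) →ₗ[K] (Fin (r + 1) → K) where
  toFun v := Fin.snoc v (- ∑ l, v l)
  map_add' v w := by
    funext i
    refine Fin.lastCases ?_ (fun i => ?_) i
    · rw [Pi.add_apply, Fin.snoc_last, Fin.snoc_last, Fin.snoc_last]
      simp only [Pi.add_apply, Finset.sum_add_distrib]; ring
    · rw [Pi.add_apply, Fin.snoc_castSucc, Fin.snoc_castSucc, Fin.snoc_castSucc]; rfl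
  map_smul' c v := by
    funext i
    refine Fin.lastCases ?_ (fun i => ?_) i
    · rw [RingHom.id_apply, Pi.smul_apply, Fin.snoc_last, Fin.snoc_last]
      simp only [Pi.smul_apply, smul_eq_mul, ← Finset.mul_sum]; ring
    · rw [RingHom.id_apply, Pi.smul_apply, Fin.snoc_castSucc, Fin.snoc_castSucc]; rfl

theorem ext_act {k : Type*} [Field k] [Algebra k K] (d : Option A → Derivation ℤ K K) {r : ℕ} (z : Fin (r + 1) → K)
    (hsum : ∑ i, z i = 0) (w : List (Option A)) :
    ext r (fun l => act d w (z l.castSucc)) = fun i => act d w (z i) := by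
  funext i
  change (Fin.snoc (fun l => act d w (z l.castSucc)) (- ∑ l, act d w (z (Fin.castSucc l))) :
    Fin (r + 1) → K) i = _
  refine Fin.lastCases ?_ (fun i => ?_) i
  · rw [Fin.snoc_last, ← act_sum]
    rw [Fin.sum_univ_castSucc] at hsum
    have h1 : ∑ i : Fin r, z i.castSucc = - z (Fin.last r) := eq_neg_of_add_eq_zero_left hsum
    rw [h1, act_neg, neg_neg]
  · rw [Fin.snoc_castSucc]

end ext

section data

variable {k K : Type*} [Field k] [Field K] [Algebra k K]

variable (k K) in
/-- the alphabet -/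
abbrev Alph := {δ : Derivation ℤ K K // Pres k δ}

variable (k K) in
/-- the global derivations -/
noncomputable def dd : Option (Alph k K) → Derivation ℤ K K
  | none => (der k K).restrictScalars ℤ
  | some δ => δ.1

/-- the local vertical derivation -/
noncomputable def DP (P : Place k K) : Derivation k K K := (der k K (unif P))⁻¹ • der k K

/-- the local derivations -/
noncomputable def dl (P : Place k K) : Option (Alph k K) → Derivation ℤ K K
  | none => (DP P).restrictScalars ℤ
  | some δ => δ.1 - (δ.1 (unif P)) • (DP P).restrictScalars ℤ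

theorem DP_apply (P : Place k K) (f : K) : DP P f = (der k K (unif P))⁻¹ * der k K f := rfl

theorem dl_none (P : Place k K) (f : K) : dl P none f = DP P f := rfl

theorem dl_some (P : Place k K) (δ : Alph k K) (f : K) :
    dl P (some δ) f = δ.1 f - δ.1 (unif P) * DP P f := rfl

theorem pres_dl (P : Place k K) (a : Option (Alph k K)) : Pres k (dl P a) := by
  cases a with
  | none => exact pres_restrict _
  | some δ =>
    intro c
    obtain ⟨c', hc'⟩ := δ.2 c
    refine ⟨c', ?_⟩
    rw [dl_some, hc', (DP P).map_algebraMap, mul_zero, sub_zero]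

variable [CharZero k] [IsFF k K]

theorem der_unif (P : Place k K) : der k K (unif P) ≠ 0 :=
  der_unif_ne der_ne P (ord_unif P)

theorem DP_unif (P : Place k K) : DP P (unif P) = 1 := by
  rw [DP_apply]; exact inv_mul_cancel₀ (der_unif P)

theorem dl_none_unif (P : Place k K) : dl P none (unif P) = 1 := by
  rw [dl_none, DP_unif]

theorem dl_some_unif (P : Place k K) (δ : Alph k K) : dl P (some δ) (unif P) = 0 := by
  rw [dl_some, DP_unif, mul_one, sub_self]

theorem dl_reg (P : Place k K) (a : Option (Alph k K)) (f : K) (hf : Ge P 0 f) :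
    Ge P 0 (dl P a f) := by
  refine pres_reg P (ord_unif P) (pres_dl P a) ?_ hf
  cases a with
  | none => rw [dl_none_unif]; exact Ge.one
  | some δ => rw [dl_some_unif]; exact Ge.zero

omit [CharZero k] [IsFF k K] in
theorem unif_ne (P : Place k K) : unif P ≠ 0 := by
  intro h
  have := ord_unif P
  rw [h, P.ord_zero] at this; omega

omit [CharZero k] [IsFF k K] in
theorem ge_zpow {P : Place k K} (N : ℤ) : Ge P N (unif P ^ N) := by
  right; rw [P.ord_zpow, ord_unif, mul_one]

omit [CharZero k] [IsFF k K] in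
/-- splitting off a power of the uniformizer -/
theorem split_zpow (P : Place k K) {N : ℤ} {f : K} (hf : Ge P N f) :
    ∃ h, Ge P 0 h ∧ f = unif P ^ N * h := by
  have h0 := unif_ne P
  refine ⟨f * unif P ^ (-N), ?_, ?_⟩
  · have := hf.mul (ge_zpow (P := P) (-N))
    rwa [add_neg_cancel] at this
  · rw [mul_comm f, ← mul_assoc, ← zpow_add₀ h0, add_neg_cancel, zpow_zero, one_mul]

theorem dl_ge_none (P : Place k K) (N : ℤ) (f : K) (hf : Ge P N f) :
    Ge P (N - 1) (dl P none f) := by
  obtain ⟨h, hh, rfl⟩ := split_zpow P hf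
  rw [(dl P none).leibniz, Derivation.leibniz_zpow, dl_none_unif]
  simp only [smul_eq_mul, zsmul_eq_mul, mul_one]
  have h1 := (ge_zpow (P := P) N).mul (dl_reg P none h hh)
  have h2 := hh.mul ((Ge.intCast (P := P) N).mul (ge_zpow (P := P) (N - 1)))
  exact (h1.mono (by omega)).add (h2.mono (by omega))

theorem dl_ge_some (P : Place k K) (δ : Alph k K) (N : ℤ) (f : K) (hf : Ge P N f) :
    Ge P N (dl P (some δ) f) := by
  obtain ⟨h, hh, rfl⟩ := split_zpow P hf
  rw [(dl P (some δ)).leibniz, Derivation.leibniz_zpow, dl_some_unif]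
  simp only [smul_eq_mul, zsmul_eq_mul, mul_zero, add_zero]
  have h1 := (ge_zpow (P := P) N).mul (dl_reg P (some δ) h hh)
  exact h1.mono (by omega)

/-- change of derivations at a place -/
theorem dd_none (P : Place k K) (f : K) : dd k K none f = der k K (unif P) * dl P none f := by
  rw [dl_none, DP_apply]
  change der k K f = _
  rw [mul_inv_cancel_left₀ (der_unif P)]

omit [CharZero k] [IsFF k K] in
theorem dd_some (P : Place k K) (δ : Alph k K) (f : K) :
    dd k K (some δ) f = dl P (some δ) f + δ.1 (unif P) * dl P none f := by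
  rw [dl_some, dl_none]
  change δ.1 f = _
  ring

end data

section est

variable {k K : Type*} [Field k] [Field K] [Algebra k K]

/-- the matrix of the words applied to all coordinates but one -/
noncomputable def minor {r : ℕ} (z : Fin (r + 1) → K) (w : Fin r → List (Option (Alph k K)))
    (j : Fin (r + 1)) : Matrix (Fin r) (Fin r) K :=
  Matrix.of fun i l => act (dd k K) (w i) (z (j.succAbove l))

theorem minor_det {r : ℕ} (z : Fin (r + 1) → K) (hsum : ∑ i, z i = 0)
    (w : Fin r → List (Option (Alph k K))) (i j : Fin (r + 1)) :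
    (minor z w i).det = (minor z w j).det ∨ (minor z w i).det = - (minor z w j).det := by
  set N : Matrix (Fin (r + 1)) (Fin r) K := Matrix.of fun a q => act (dd k K) (w q) (z a) with hN
  have h0 : ∑ l, N l = 0 := by
    have e : (∑ l, N l) = fun q : Fin r => ∑ l, act (dd k K) (w q) (z l) := by
      funext q
      exact Finset.sum_apply q Finset.univ (fun l => (fun q : Fin r => act (dd k K) (w q) (z l)))
    rw [e]
    funext q
    change ∑ l, act (dd k K) (w q) (z l) = 0
    rw [← act_sum, hsum, act_zero]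
  have h1 := Matrix.submatrix_succAbove_det_eq_negOnePow_submatrix_succAbove_det N h0 i j
  have h2 : ∀ l : Fin (r + 1), (N.submatrix (Fin.succAbove l) id).det = (minor z w l).det := by
    intro l
    rw [← Matrix.det_transpose]
    rfl
  rw [h2, h2] at h1
  rcases Int.units_eq_one_or (Int.negOnePow ((i : ℤ) - (j : ℤ))) with h3 | h3
  · left; rw [h1, h3, one_smul]
  · right; rw [h1, h3]; simp

theorem transfer {r : ℕ} (z : Fin (r + 1) → K) (hsum : ∑ i, z i = 0)
    (w : Fin r → List (Option (Alph k K)))
    (hw2 : ∀ i, U (dd k K) (fun l => z l.castSucc) (rk (w i)) ≤ Submodule.span K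
      {v | ∃ j, j < i ∧ v = fun l => act (dd k K) (w j) (z (Fin.castSucc l))}) (j0 : Fin (r + 1))
    (i : Fin r) : U (dd k K) (fun l => z (j0.succAbove l)) (rk (w i)) ≤
      Submodule.span K {v | ∃ l, l < i ∧ v = minor z w j0 l} := by
  set L : (Fin r → K) →ₗ[K] (Fin r → K) := (LinearMap.funLeft K K j0.succAbove) ∘ₗ ext r with hL
  have hLa : ∀ w' : List (Option (Alph k K)), L (fun l => act (dd k K) w' (z (Fin.castSucc l))) =
      fun l => act (dd k K) w' (z (j0.succAbove l)) := by
    intro w'
    rw [hL, LinearMap.comp_apply, ext_act (k := k) (dd k K) z hsum w']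
    rfl
  have h1 : U (dd k K) (fun l => z (j0.succAbove l)) (rk (w i)) ≤
      (U (dd k K) (fun l => z l.castSucc) (rk (w i))).map L := by
    unfold U
    rw [Submodule.span_le]
    rintro v ⟨w', hw', rfl⟩
    refine ⟨fun l => act (dd k K) w' (z (Fin.castSucc l)), Submodule.subset_span ⟨w', hw', rfl⟩, ?_⟩
    exact hLa w'
  refine h1.trans ((Submodule.map_mono (hw2 i)).trans ?_)
  rw [Submodule.map_span, Submodule.span_le]
  rintro _ ⟨_, ⟨j, hj, rfl⟩, rfl⟩
  refine Submodule.subset_span ⟨j, hj, ?_⟩
  rw [hLa]; rfl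

variable [CharZero k] [IsFF k K]

open Classical in
theorem local_bound {r : ℕ} (z : Fin (r + 1) → K) (hz : ∀ i, z i ≠ 0) (hsum : ∑ i, z i = 0)
    (w : Fin r → List (Option (Alph k K)))
    (hw2 : ∀ i, U (dd k K) (fun l => z l.castSucc) (rk (w i)) ≤ Submodule.span K
      {v | ∃ j, j < i ∧ v = fun l => act (dd k K) (w j) (z (Fin.castSucc l))})
    (P : Place k K) (j0 : Fin (r + 1))
    (hdet : (minor z w j0).det ≠ 0) :
    ((∑ i, num (w i) : ℕ) : ℤ) * P.ord (der k K (unif P)) + ∑ i, P.ord (z i) - P.ord (z j0) -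
      (if ∃ i j, P.ord (z i) ≠ P.ord (z j) then ((∑ i, num (w i) : ℕ) : ℤ) else 0) ≤
        P.ord (minor z w j0).det := by
  set u : K := der k K (unif P) with hu
  have hu0 : u ≠ 0 := der_unif P
  set y : Fin r → K := fun l => z (j0.succAbove l) with hy
  have htri : ∀ g : K, g ≠ 0 → (minor z w j0).det = (∏ i, u ^ num (w i) * g) *
      (Matrix.of fun i l => act (dl P) (w i) (y l / g) : Matrix (Fin r) (Fin r) K).det := by
    intro g hg
    refine det_tri _ _ _ fun i => ?_
    refine transfer z hsum w hw2 j0 i ?_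
    have := act_congr (dd k K) (dl P) hu0 hg (fun δ => δ.1 (unif P)) (dd_none P) (dd_some P) y (w i)
    exact this
  have hsumz : ∑ i, P.ord (z i) = P.ord (z j0) + ∑ l, P.ord (y l) := Fin.sum_univ_succAbove _ j0
  have hprod : ∀ g : K, g ≠ 0 → (∏ i, u ^ num (w i) * g) ≠ 0 ∧
      P.ord (∏ i, u ^ num (w i) * g) = ((∑ i, num (w i) : ℕ) : ℤ) * P.ord u + r * P.ord g := by
    intro g hg
    have h1 : ∏ i, u ^ num (w i) * g = u ^ (∑ i, num (w i)) * g ^ r := by
      rw [Finset.prod_mul_distrib, Finset.prod_const, Finset.card_univ, Fintype.card_fin,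
        Finset.prod_pow_eq_pow_sum]
    rw [h1]
    refine ⟨mul_ne_zero (pow_ne_zero _ hu0) (pow_ne_zero _ hg), ?_⟩
    rw [P.ord_mul (pow_ne_zero _ hu0) (pow_ne_zero _ hg), P.ord_pow, P.ord_pow]
  by_cases hS : ∃ i j, P.ord (z i) ≠ P.ord (z j)
  · rw [if_pos hS]
    have h1 := htri 1 one_ne_zero
    set M' : Matrix (Fin r) (Fin r) K := Matrix.of fun i l => act (dl P) (w i) (y l / 1) with hM'
    have h2 : Ge P (∑ l, P.ord (y l) - ∑ i, (num (w i) : ℤ)) M'.det := by
      refine Ge_det M' (fun l => P.ord (y l)) (fun i => (num (w i) : ℤ)) fun i l => ?_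
      change Ge P _ (act (dl P) (w i) (y l / 1))
      rw [div_one]
      exact act_ge (dl P) (dl_ge_none P) (dl_ge_some P) (w i) (Or.inr le_rfl)
    obtain ⟨h3, h4⟩ := hprod 1 one_ne_zero
    have hM0 : M'.det ≠ 0 := by
      intro h0
      rw [h1, h0, mul_zero] at hdet
      exact hdet rfl
    have h5 := h2.resolve_left hM0
    rw [h1, P.ord_mul h3 hM0, h4, P.ord_one, hsumz]
    push_cast at h5 ⊢
    linarith
  · rw [if_neg hS]
    push Not at hS
    set μ := P.ord (z j0) with hμ
    have hπ0 := unif_ne P
    have hg : unif P ^ μ ≠ 0 := zpow_ne_zero _ hπ0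
    have hgo : P.ord (unif P ^ μ) = μ := by rw [P.ord_zpow, ord_unif, mul_one]
    have h1 := htri _ hg
    set M' : Matrix (Fin r) (Fin r) K :=
      Matrix.of fun i l => act (dl P) (w i) (y l / unif P ^ μ) with hM'
    have hyμ : ∀ l, P.ord (y l) = μ := fun l => hS _ _
    have h2 : Ge P (∑ l : Fin r, (0 : ℤ) - ∑ i : Fin r, (0 : ℤ)) M'.det := by
      refine Ge_det M' (fun _ => 0) (fun _ => 0) fun i l => ?_
      change Ge P _ (act (dl P) (w i) (y l / unif P ^ μ))
      rw [sub_zero]
      refine act_ge0 (dl P) (dl_reg P) (w i) (Or.inr ?_)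
      rw [P.ord_div (hz _) hg, hyμ, hgo, sub_self]
    obtain ⟨h3, h4⟩ := hprod _ hg
    have hM0 : M'.det ≠ 0 := by
      intro h0
      rw [h1, h0, mul_zero] at hdet
      exact hdet rfl
    have h5 := h2.resolve_left hM0
    have h6 : ∑ l, P.ord (y l) = r * μ := by
      rw [Finset.sum_congr rfl fun l _ => hyμ l]; simp
    rw [h1, P.ord_mul h3 hM0, h4, hgo, hsumz, h6]
    simp only [Finset.sum_const_zero, sub_self] at h5
    linarith

end est

end Pool.Agent.N756.GP
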