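import Mathlib

/-! Words in derivations acting on vectors. -/

set_option autoImplicit false

namespace Pool.Agent.N756.GP

variable {K : Type*} [Field K] {A : Type*} {ι : Type*}

/-- action of a word in derivations -/
def act (d : Option A → Derivation ℤ K K) : List (Option A) → K → K
  | [], f => f
  | a :: w, f => d a (act d w f)

/-- number of letters different from `none` -/
def som : List (Option A) → ℕ
  | [] => 0
  | none :: w => som w
  | some _ :: w => som w + 1

/-- number of letters `none` -/
def num : List (Option A) → ℕ
  | [] => 0
  | none :: w => num w + 1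
  | some _ :: w => num w

theorem num_add_som (w : List (Option A)) : num w + som w = w.length := by
  induction w with
  | nil => rfl
  | cons a w ih =>
    cases a with
    | none => simp only [num, som, List.length_cons]; omega
    | some a => simp only [num, som, List.length_cons]; omega

theorem som_le (w : List (Option A)) : som w ≤ w.length := by
  have := num_add_som w; omega

theorem num_le (w : List (Option A)) : num w ≤ w.length := by
  have := num_add_som w; omega

/-- rank of a word -/
def rk (w : List (Option A)) : ℕ := w.length ^ 2 + som w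

theorem len_of_rk {w : List (Option A)} {L s : ℕ} (hs : s ≤ 2 * L + 1) (h : rk w < L ^ 2 + s) :
    w.length < L ∨ (w.length = L ∧ som w < s) := by
  unfold rk at h
  rcases lt_trichotomy w.length L with h1 | h1 | h1
  · exact Or.inl h1
  · right; refine ⟨h1, ?_⟩
    rw [h1] at h; omega
  · exfalso
    have : (L + 1) ^ 2 ≤ w.length ^ 2 := Nat.pow_le_pow_left h1 2
    nlinarith

/-- the vectors obtained by words of small rank -/
def U (d : Option A → Derivation ℤ K K) (z : ι → K) (N : ℕ) : Submodule K (ι → K) :=
  Submodule.span K {v | ∃ w : List (Option A), rk w < N ∧ v = fun i => act d w (z i)}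

theorem U_mono (d : Option A → Derivation ℤ K K) (z : ι → K) {N M : ℕ} (h : N ≤ M) :
    U d z N ≤ U d z M :=
  Submodule.span_mono fun _ ⟨w, hw, e⟩ => ⟨w, lt_of_lt_of_le hw h, e⟩

theorem mem_U (d : Option A → Derivation ℤ K K) (z : ι → K) {N : ℕ} {w : List (Option A)}
    (h : rk w < N) : (fun i => act d w (z i)) ∈ U d z N :=
  Submodule.subset_span ⟨w, h, rfl⟩

theorem der_mem (d : Option A → Derivation ℤ K K) (z : ι → K) {N M : ℕ} (a : Option A)
    (hNM : N ≤ M) (h : ∀ w : List (Option A), rk w < N → rk (a :: w) < M) {q : ι → K}
    (hq : q ∈ U d z N) : (fun i => d a (q i)) ∈ U d z M := by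
  unfold U at hq
  induction hq using Submodule.span_induction with
  | mem v hv =>
    obtain ⟨w, hw, rfl⟩ := hv
    exact mem_U d z (h w hw)
  | zero =>
    have : (fun i => d a ((0 : ι → K) i)) = 0 := by funext i; simp
    rw [this]; exact Submodule.zero_mem _
  | add x y _ _ hx hy =>
    have : (fun i => d a ((x + y) i)) = (fun i => d a (x i)) + fun i => d a (y i) := by
      funext i; simp
    rw [this]; exact Submodule.add_mem _ hx hy
  | smul c x hx' hx =>
    have : (fun i => d a ((c • x) i)) = c • (fun i => d a (x i)) + (d a c) • x := by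
      funext i; simp [mul_comm]
    rw [this]
    exact Submodule.add_mem _ (Submodule.smul_mem _ _ hx) (Submodule.smul_mem _ _ (U_mono d z hNM hx'))

theorem der_none (d : Option A → Derivation ℤ K K) (z : ι → K) {L s : ℕ} (hs : s ≤ 2 * L + 1)
    {q : ι → K} (hq : q ∈ U d z (L ^ 2 + s)) :
    (fun i => d none (q i)) ∈ U d z ((L + 1) ^ 2 + s) := by
  refine der_mem d z none (by nlinarith) (fun w hw => ?_) hq
  have h1 := len_of_rk hs hw
  have h2 := som_le w
  unfold rk
  simp only [List.length_cons, som]
  rcases h1 with h1 | ⟨h1, h3⟩
  · have : (w.length + 1) ^ 2 ≤ L ^ 2 := Nat.pow_le_pow_left h1 2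
    nlinarith
  · rw [h1]; omega

theorem der_some (d : Option A → Derivation ℤ K K) (z : ι → K) (a : A) {L s : ℕ}
    (hs : s ≤ 2 * L + 1) {q : ι → K} (hq : q ∈ U d z (L ^ 2 + s)) :
    (fun i => d (some a) (q i)) ∈ U d z ((L + 1) ^ 2 + s + 1) := by
  refine der_mem d z (some a) (by nlinarith) (fun w hw => ?_) hq
  have h1 := len_of_rk hs hw
  have h2 := som_le w
  unfold rk
  simp only [List.length_cons, som]
  rcases h1 with h1 | ⟨h1, h3⟩
  · have : (w.length + 1) ^ 2 ≤ L ^ 2 := Nat.pow_le_pow_left h1 2
    nlinarith
  · rw [h1]; omega

/-- The change of derivations. -/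
theorem act_congr (d d' : Option A → Derivation ℤ K K) {u g : K} (hu : u ≠ 0) (hg : g ≠ 0)
    (c : A → K) (h0 : ∀ f, d none f = u * d' none f)
    (h1 : ∀ a f, d (some a) f = d' (some a) f + c a * d' none f) (z : ι → K)
    (w : List (Option A)) :
    (fun i => act d w (z i) - u ^ num w * g * act d' w (z i / g)) ∈ U d z (rk w) := by
  induction w with
  | nil =>
    have : (fun i => act d [] (z i) - u ^ num ([] : List (Option A)) * g * act d' [] (z i / g)) =
        (0 : ι → K) := by
      funext i
      simp only [act, num, pow_zero, one_mul, Pi.zero_apply]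
      field_simp
      simp
    rw [this]; exact Submodule.zero_mem _
  | cons a w ih =>
    set lam : K := u ^ num w * g with hlam
    have hlam0 : lam ≠ 0 := mul_ne_zero (pow_ne_zero _ hu) hg
    set q : ι → K := fun i => act d w (z i) - lam * act d' w (z i / g) with hq
    set X : ι → K := fun i => act d' w (z i / g) with hX
    have hsl := som_le w
    -- `X` is in the span of the words of rank at most that of `w`
    have hXU : X ∈ U d z (w.length ^ 2 + (som w + 1)) := by
      have e : X = lam⁻¹ • ((fun i => act d w (z i)) - q) := by
        funext i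
        simp only [hX, hq, Pi.smul_apply, Pi.sub_apply, smul_eq_mul]
        field_simp
        ring
      rw [e]
      refine Submodule.smul_mem _ _ (Submodule.sub_mem _ (mem_U d z ?_) (U_mono d z ?_ ih))
      · unfold rk; omega
      · unfold rk; omega
    have hqU : q ∈ U d z (w.length ^ 2 + som w) := ih
    have hact : ∀ i, act d w (z i) = lam * X i + q i := by
      intro i; simp only [hX, hq]; ring
    have hXbig : ∀ N, (w.length + 1) ^ 2 ≤ N → X ∈ U d z N := by
      intro N hN
      refine U_mono d z ?_ hXU
      nlinarith
    -- derivative of `X` with respect to `none`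
    have hXn : (fun i => d none (X i)) ∈ U d z ((w.length + 1) ^ 2 + (som w + 1)) :=
      der_none d z (by omega) hXU
    cases a with
    | none =>
      have e : (fun i => act d (none :: w) (z i) -
          u ^ num (none :: w) * g * act d' (none :: w) (z i / g)) =
          (d none lam) • X + fun i => d none (q i) := by
        funext i
        simp only [act, num, Pi.add_apply, Pi.smul_apply, smul_eq_mul]
        rw [hact i, map_add, (d none).leibniz, h0 (X i)]
        simp only [smul_eq_mul, hlam, hX]
        ring
      rw [e]
      refine Submodule.add_mem _ (Submodule.smul_mem _ _ (hXbig _ ?_)) ?_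
      · unfold rk; simp only [List.length_cons]; omega
      · have := der_none d z (by omega) hqU
        unfold rk
        simpa only [List.length_cons, som] using this
    | some a =>
      have e : (fun i => act d (some a :: w) (z i) -
          u ^ num (some a :: w) * g * act d' (some a :: w) (z i / g)) =
          (d (some a) lam) • X + (lam * c a * u⁻¹) • (fun i => d none (X i)) +
            fun i => d (some a) (q i) := by
        funext i
        simp only [act, num, Pi.add_apply, Pi.smul_apply, smul_eq_mul]
        rw [hact i, map_add, (d (some a)).leibniz, h1 a (X i), h0 (X i)]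
        simp only [smul_eq_mul]
        rw [← hlam]
        have : lam * c a * u⁻¹ * (u * d' none (X i)) = lam * c a * d' none (X i) := by
          field_simp
        rw [this]
        simp only [hX]
        ring
      rw [e]
      have hrk : rk (some a :: w) = (w.length + 1) ^ 2 + (som w + 1) := by
        unfold rk; simp only [List.length_cons, som]
      rw [hrk]
      refine Submodule.add_mem _ (Submodule.add_mem _ (Submodule.smul_mem _ _ (hXbig _ ?_))
        (Submodule.smul_mem _ _ hXn)) ?_
      · omega
      · have := der_some d z a (by omega) hqU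
        rwa [add_assoc] at this

/-- Determinants of triangularly related matrices. -/
theorem det_tri {r : ℕ} (M M' : Matrix (Fin r) (Fin r) K) (lam : Fin r → K)
    (h : ∀ i, (M i - lam i • M' i) ∈ Submodule.span K {v | ∃ l, l < i ∧ v = M l}) :
    M.det = (∏ i, lam i) * M'.det := by
  have h1 : ∀ i, ∃ c : Fin r → K, (∀ l, i ≤ l → c l = 0) ∧ M i - lam i • M' i = ∑ l, c l • M l := by
    intro i
    have h2 := h i
    generalize M i - lam i • M' i = v0 at h2 ⊢
    induction h2 using Submodule.span_induction with
    | mem v hv =>
      obtain ⟨l, hl, rfl⟩ := hv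
      refine ⟨Pi.single l 1, fun j hj => ?_, ?_⟩
      · rw [Pi.single_eq_of_ne]; rintro rfl; exact absurd hl (not_lt.2 hj)
      · rw [Finset.sum_eq_single l]
        · simp
        · intro j _ hj; rw [Pi.single_eq_of_ne hj, zero_smul]
        · intro h; exact absurd (Finset.mem_univ l) h
    | zero => exact ⟨0, fun _ _ => rfl, by simp⟩
    | add x y _ _ hx hy =>
      obtain ⟨c, hc, ec⟩ := hx
      obtain ⟨c', hc', ec'⟩ := hy
      refine ⟨c + c', fun l hl => by simp [hc l hl, hc' l hl], ?_⟩
      rw [ec, ec', ← Finset.sum_add_distrib]
      exact Finset.sum_congr rfl fun l _ => by rw [Pi.add_apply, add_smul]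
    | smul b x _ hx =>
      obtain ⟨c, hc, ec⟩ := hx
      refine ⟨b • c, fun l hl => by simp [hc l hl], ?_⟩
      rw [ec, Finset.smul_sum]
      exact Finset.sum_congr rfl fun l _ => by rw [Pi.smul_apply, smul_eq_mul, mul_smul]
  choose c hc hce using h1
  have h2 : (1 - Matrix.of c) * M = Matrix.diagonal lam * M' := by
    ext i j
    rw [Matrix.sub_mul, Matrix.one_mul, Matrix.sub_apply, Matrix.diagonal_mul, Matrix.mul_apply]
    have := congrFun (hce i) j
    simp only [Pi.sub_apply, Pi.smul_apply, smul_eq_mul, Finset.sum_apply] at this
    simp only [Matrix.of_apply]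
    rw [← this]; ring
  have h3 : (1 - Matrix.of c).det = 1 := by
    rw [Matrix.det_of_isLowerTriangular]
    · refine Finset.prod_eq_one fun i _ => ?_
      rw [Matrix.sub_apply, Matrix.one_apply_eq, Matrix.of_apply, hc i i le_rfl, sub_zero]
    · intro i j hij
      have hij' : i < j := hij
      rw [Matrix.sub_apply, Matrix.one_apply_ne hij'.ne, Matrix.of_apply, hc i j hij'.le, sub_zero]
  have h4 := congrArg Matrix.det h2
  rw [Matrix.det_mul, Matrix.det_mul, h3, one_mul, Matrix.det_diagonal] at h4
  exact h4

end Pool.Agent.N756.GP
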